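import Pool.Agent.RecIso72.Game

set_option autoImplicit false

/-!
# Cycles in orbits with nontrivial stabilizers
-/

noncomputable section

namespace Pool.Agent.RecIso72

/-- the colourings without monochromatic triangles -/
def Ufr : Set Cl := {y | ∀ w m, ¬ viol y w m}

theorem Ufr_act {g : Lam} {y : Cl} (h : y ∈ Ufr) : act g y ∈ Ufr := by
  intro w m hv
  rw [viol_act] at hv
  exact h _ _ hv

theorem Ufr_free {y : Cl} (h : y ∈ Ufr) {m : ℕ} {k : ZMod 3} (hk : k ≠ 0)
    (he : act (s m k) y = y) : False := by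
  apply h 1 m
  have h1 : ∀ i : ZMod 3, y (s m i, m) = y (s m (i - k), m) := by
    intro i
    have := congrFun he (s m i, m)
    unfold act at this
    simp only at this
    rw [← s_neg, ← s_add] at this
    rw [← this]
    congr 2
    ring_nf
  have h2 : y (s m 0, m) = y (s m (-k), m) := by
    have := h1 0
    rwa [zero_sub] at this
  have h3 : y (s m (-k), m) = y (s m (-k - k), m) := h1 (-k)
  have h4 : ∀ (k : ZMod 3), k ≠ 0 → ∀ i : ZMod 3, i = 0 ∨ i = -k ∨ i = -k - k := by decide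
  intro i
  rw [one_mul]
  rcases h4 k hk i with rfl | rfl | rfl
  · rw [s_zero]
  · rw [← s_zero m, ← h2]
  · rw [← s_zero m, ← h3, ← h2]

/-- products of letters -/
def lp (L : List (ℕ × ZMod 3)) : Lam := (L.map fun a => s a.1 a.2).prod

theorem lp_nil : lp [] = 1 := rfl

theorem lp_cons (a : ℕ × ZMod 3) (L : List (ℕ × ZMod 3)) : lp (a :: L) = s a.1 a.2 * lp L := by
  simp [lp]

theorem lp_append (L L' : List (ℕ × ZMod 3)) : lp (L ++ L') = lp L * lp L' := by
  simp [lp]

theorem lp_surj (g : Lam) : ∃ L, lp L = g := by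
  induction g using lam_induction' with
  | one => exact ⟨[], rfl⟩
  | step n k g ih =>
    obtain ⟨L, rfl⟩ := ih
    exact ⟨(n, k) :: L, lp_cons _ _⟩

/-- there is a point in the orbit of `y` fixed by a nontrivial product of `N` letters -/
def HasCyc (y : Cl) (N : ℕ) : Prop :=
  ∃ (L : List (ℕ × ZMod 3)) (h : Lam), L.length = N ∧ lp L ≠ 1 ∧ act (lp L) (act h y) = act h y

theorem exists_hasCyc {y : Cl} {g : Lam} (hg : g ≠ 1) (hy : act g y = y) : ∃ N, HasCyc y N := by
  obtain ⟨L, rfl⟩ := lp_surj g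
  exact ⟨L.length, L, 1, rfl, hg, by rw [act_one]; exact hy⟩

theorem act_inv_act (g : Lam) (y : Cl) : act g⁻¹ (act g y) = y := by
  rw [← act_mul, inv_mul_cancel, act_one]

theorem act_act_inv (g : Lam) (y : Cl) : act g (act g⁻¹ y) = y := by
  rw [← act_mul, mul_inv_cancel, act_one]

/-- The existence of a good finite set in an orbit with nontrivial stabilizer. -/
theorem exists_good_set {y : Cl} (hy : y ∈ Ufr) {g : Lam} (hg : g ≠ 1) (hgy : act g y = y) :
    ∃ (K : Finset Cl) (ν : Cl → ℕ), K.Nonempty ∧ (∀ x ∈ K, ∃ h, x = act h y) ∧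
      ∀ x ∈ K, ∃ j : ZMod 3, act (s (ν x) j) x ∈ K ∧ ν (act (s (ν x) j) x) ≠ ν x := by
  classical
  have hex := exists_hasCyc hg hgy
  obtain ⟨L, h, hL, hL1, hLf⟩ := Nat.find_spec hex
  set N := Nat.find hex with hN
  have hmin : ∀ (L' : List (ℕ × ZMod 3)) (h' : Lam), lp L' ≠ 1 →
      act (lp L') (act h' y) = act h' y → N ≤ L'.length := by
    intro L' h' h1 h2
    exact Nat.find_min' hex ⟨L', h', rfl, h1, h2⟩
  set p := act h y with hp
  -- conjugated form of minimality
  have hmin' : ∀ (L' L1 : List (ℕ × ZMod 3)), lp L' ≠ 1 →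
      act (lp L') (act (lp L1)⁻¹ p) = act (lp L1)⁻¹ p → N ≤ L'.length := by
    intro L' L1 h1 h2
    refine hmin L' ((lp L1)⁻¹ * h) h1 ?_
    rw [act_mul]
    exact h2
  have hmin0 : ∀ (L' : List (ℕ × ZMod 3)), lp L' = lp L → N ≤ L'.length := by
    intro L' h1
    refine hmin L' h (by rw [h1]; exact hL1) (by rw [h1]; exact hLf)
  -- adjacent letters
  have hadj : ∀ L1 a b L2, L = L1 ++ a :: b :: L2 → a.1 ≠ b.1 := by
    intro L1 a b L2 hd hab
    have h1 := hmin0 (L1 ++ (a.1, a.2 + b.2) :: L2) (by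
      rw [hd, lp_append, lp_append, lp_cons, lp_cons, lp_cons, ← hab, s_add]
      simp only [mul_assoc])
    have h2 : L.length = L1.length + (L2.length + 1 + 1) := by rw [hd]; simp
    simp only [List.length_append, List.length_cons] at h1
    omega
  -- distinctness
  have hdis0 : ∀ L1 a M b L2, L = L1 ++ a :: M ++ b :: L2 →
      act (lp L1)⁻¹ p = act (lp (L1 ++ a :: M))⁻¹ p → False := by
    intro L1 a M b L2 hd he
    have hlen : L.length = L1.length + (M.length + 1) + (L2.length + 1) := by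
      rw [hd]
      simp only [List.length_append, List.length_cons]
    have h0 : act (lp (a :: M)) (act (lp L1)⁻¹ p) = act (lp L1)⁻¹ p := by
      rw [lp_append, mul_inv_rev, act_mul] at he
      conv_lhs => rw [he]
      rw [act_act_inv]
    have h1 : lp (a :: M) = 1 := by
      by_contra hne
      have := hmin' (a :: M) L1 hne h0
      simp only [List.length_cons] at this
      omega
    have h2 := hmin0 (L1 ++ b :: L2) (by
      rw [hd, lp_append, lp_append, lp_append, h1, mul_one])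
    simp only [List.length_append, List.length_cons] at h2
    omega
  have hdis : ∀ L1 a L2 L1' a' L2', L = L1 ++ a :: L2 → L = L1' ++ a' :: L2' →
      act (lp L1)⁻¹ p = act (lp L1')⁻¹ p → a = a' := by
    intro L1 a L2 L1' a' L2' h1 h2 he
    have h3 : L1 ++ a :: L2 = L1' ++ a' :: L2' := h1.symm.trans h2
    rcases List.append_eq_append_iff.1 h3 with ⟨M, hM1, hM2⟩ | ⟨M, hM1, hM2⟩
    · rcases M with _ | ⟨c, M⟩
      · simp only [List.nil_append, List.cons.injEq] at hM2
        exact hM2.1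
      · exfalso
        refine hdis0 L1 c M a' L2' ?_ ?_
        · rw [h2, hM1]
        · rw [he, hM1]
    · rcases M with _ | ⟨c, M⟩
      · simp only [List.nil_append, List.cons.injEq] at hM2
        exact hM2.1.symm
      · exfalso
        refine hdis0 L1' c M a L2 ?_ ?_
        · rw [h1, hM1]
        · rw [← he, hM1]
  -- the cyclic condition
  have hcyc : ∀ a L1 b, L = a :: L1 ++ [b] → a.1 ≠ b.1 := by
    intro a L1 b hd hab
    have h1 := hmin' (L1 ++ [(b.1, b.2 + a.2)]) [a] (by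
      intro h1
      apply hL1
      have h2 : lp L = s a.1 a.2 * lp (L1 ++ [(b.1, b.2 + a.2)]) * (s a.1 a.2)⁻¹ := by
        rw [hd, lp_append, lp_append, lp_cons, lp_cons, lp_cons, lp_nil, s_add, ← hab]
        group
      rw [h2, h1]
      group) (by
      have h2 : s a.1 a.2 * lp (L1 ++ [(b.1, b.2 + a.2)]) = lp L * s a.1 a.2 := by
        rw [hd, lp_append, lp_append, lp_cons, lp_cons, lp_cons, lp_nil, s_add, ← hab]
        group
      have h3 : lp [a] = s a.1 a.2 := by rw [lp_cons, lp_nil, mul_one]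
      rw [h3]
      have h4 : lp (L1 ++ [(b.1, b.2 + a.2)]) = (s a.1 a.2)⁻¹ * (lp L * s a.1 a.2) := by
        rw [← h2]; group
      rw [h4, act_mul, act_mul, act_act_inv, hLf])
    have h2 : L.length = L1.length + 1 + 1 := by rw [hd]; simp
    simp only [List.length_append, List.length_cons, List.length_nil] at h1
    omega
  -- length at least two
  have hone : ∀ a, L ≠ [a] := by
    intro a hd
    have h3 : lp L = s a.1 a.2 := by rw [hd, lp_cons, lp_nil, mul_one]
    rw [h3] at hL1 hLf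
    refine Ufr_free (y := p) (by rw [hp]; exact Ufr_act hy) (m := a.1) (k := a.2) ?_ hLf
    intro h0
    apply hL1
    rw [h0, s_zero]
  have hnil : L ≠ [] := by
    intro hd
    apply hL1
    rw [hd, lp_nil]
  -- the finite set
  let K : Finset Cl := (Finset.range L.length).image fun i => act (lp (L.take i))⁻¹ p
  have hK : ∀ x, x ∈ K ↔ ∃ L1 a L2, L = L1 ++ a :: L2 ∧ x = act (lp L1)⁻¹ p := by
    intro x
    constructor
    · intro hx
      obtain ⟨i, hi, rfl⟩ := Finset.mem_image.1 hx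
      rw [Finset.mem_range] at hi
      refine ⟨L.take i, L[i], L.drop (i + 1), ?_, rfl⟩
      rw [← List.drop_eq_getElem_cons hi, List.take_append_drop]
    · rintro ⟨L1, a, L2, hd, rfl⟩
      refine Finset.mem_image.2 ⟨L1.length, ?_, ?_⟩
      · rw [Finset.mem_range, hd]
        simp
      · rw [hd, List.take_left]
  let ν : Cl → ℕ := fun x => if hx : ∃ a : ℕ × ZMod 3, ∃ L1 L2, L = L1 ++ a :: L2 ∧
    x = act (lp L1)⁻¹ p then hx.choose.1 else 0
  have hν : ∀ L1 a L2, L = L1 ++ a :: L2 → ν (act (lp L1)⁻¹ p) = a.1 := by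
    intro L1 a L2 hd
    have hx : ∃ a : ℕ × ZMod 3, ∃ L1' L2, L = L1' ++ a :: L2 ∧
      act (lp L1)⁻¹ p = act (lp L1')⁻¹ p := ⟨a, L1, L2, hd, rfl⟩
    have h1 : ν (act (lp L1)⁻¹ p) = hx.choose.1 := by
      change (if hx : _ then _ else _) = _
      rw [dif_pos hx]
    rw [h1]
    obtain ⟨L1', L2', h2, h3⟩ := hx.choose_spec
    exact congrArg Prod.fst (hdis _ _ _ _ _ _ h2 hd h3.symm)
  refine ⟨K, ν, ?_, ?_, ?_⟩
  · rcases hL' : L with _ | ⟨a, L'⟩
    · exact absurd hL' hnil
    · exact ⟨_, (hK _).2 ⟨[], a, L', hL', rfl⟩⟩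
  · intro x hx
    obtain ⟨L1, a, L2, hd, rfl⟩ := (hK x).1 hx
    exact ⟨(lp L1)⁻¹ * h, by rw [act_mul]⟩
  · intro x hx
    obtain ⟨L1, a, L2, hd, rfl⟩ := (hK x).1 hx
    rw [hν L1 a L2 hd]
    refine ⟨-a.2, ?_⟩
    have h1 : act (s a.1 (-a.2)) (act (lp L1)⁻¹ p) = act (lp (L1 ++ [a]))⁻¹ p := by
      rw [lp_append, mul_inv_rev, act_mul, lp_cons, lp_nil, mul_one, s_neg]
    rw [h1]
    rcases L2 with _ | ⟨b, L2⟩
    · rw [← hd]
      have h2 : act (lp L)⁻¹ p = act (lp [])⁻¹ p := by
        rw [lp_nil, inv_one, act_one]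
        conv_lhs => rw [← hLf]
        rw [act_inv_act]
      rw [h2]
      rcases L1 with _ | ⟨c, L1⟩
      · exact absurd hd (hone a)
      · have h3 : L = [] ++ c :: (L1 ++ [a]) := by rw [hd]; rfl
        rw [hν [] c _ h3]
        exact ⟨(hK _).2 ⟨[], c, _, h3, rfl⟩, hcyc c L1 a hd⟩
    · have h3 : L = (L1 ++ [a]) ++ b :: L2 := by rw [hd]; simp
      rw [hν _ b L2 h3]
      exact ⟨(hK _).2 ⟨_, b, L2, h3, rfl⟩, (hadj L1 a b L2 hd).symm⟩

end Pool.Agent.RecIso72
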