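import Pool.Agent.RecIso72.CycA

set_option autoImplicit false

/-!
# A measurable choice of triangles on the part with nontrivial stabilizers
-/

noncomputable section

namespace Pool.Agent.RecIso72

/-- codes of interpolating functions -/
abbrev Code : Type := List (Finset ((Lam × ℕ) × Bool) × ℕ)

open Classical in
/-- the function with a given code -/
def rr : Code → Cl → ℕ
  | [], _ => 0
  | a :: L, y => if ∀ c ∈ a.1, y c.1 = c.2 then a.2 else rr L y

theorem measurable_rr (L : Code) : Measurable (rr L) := by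
  classical
  induction L with
  | nil => exact measurable_const
  | cons a L ih =>
    have h : MeasurableSet {y : Cl | ∀ c ∈ a.1, y c.1 = c.2} := by
      have : {y : Cl | ∀ c ∈ a.1, y c.1 = c.2} = ⋂ c ∈ a.1, {y : Cl | y c.1 = c.2} := by
        ext y
        simp
      rw [this]
      refine Finset.measurableSet_biInter _ fun c _ => ?_
      exact measurableSet_eq_fun (measurable_pi_apply _) measurable_const
    exact Measurable.ite h measurable_const ih

theorem interp (K : Finset Cl) (ν : Cl → ℕ) : ∃ L : Code, ∀ x ∈ K, rr L x = ν x := by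
  classical
  induction K using Finset.induction_on with
  | empty => exact ⟨[], by simp⟩
  | insert p K hp ih =>
    obtain ⟨L, hL⟩ := ih
    have hc : ∀ q : Cl, q ≠ p → ∃ c, q c ≠ p c := fun q hq => by
      by_contra hcon
      push Not at hcon
      exact hq (funext hcon)
    let cf : Cl → Lam × ℕ := fun q => if hq : q ≠ p then (hc q hq).choose else (1, 0)
    have hcf : ∀ q, q ≠ p → q (cf q) ≠ p (cf q) := by
      intro q hq
      have : cf q = (hc q hq).choose := dif_pos hq
      rw [this]
      exact (hc q hq).choose_spec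
    refine ⟨(K.image fun q => (cf q, p (cf q)), ν p) :: L, ?_⟩
    intro x hx
    rcases Finset.mem_insert.1 hx with rfl | hx
    · unfold rr
      rw [if_pos]
      intro c hc
      obtain ⟨q, _, rfl⟩ := Finset.mem_image.1 hc
      rfl
    · unfold rr
      rw [if_neg]
      · exact hL x hx
      · intro hall
        have h1 := hall (cf x, p (cf x)) (Finset.mem_image.2 ⟨x, hx, rfl⟩)
        exact hcf x (fun h => hp (h ▸ hx)) h1

instance : Countable Code := inferInstance

/-- enumeration of codes -/
def codeE : ℕ → Code := (exists_surjective_nat Code).choose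

theorem codeE_surj : Function.Surjective codeE := (exists_surjective_nat Code).choose_spec

theorem measurable_act (g : Lam) : Measurable (act g) := by
  refine measurable_pi_lambda _ fun p => ?_
  exact measurable_pi_apply _

/-- approximations of the centre -/
def Cm (r : Cl → ℕ) : ℕ → Set Cl
  | 0 => Set.univ
  | m + 1 => {x | ∃ j : ZMod 3, act (s (r x) j) x ∈ Cm r m ∧ r (act (s (r x) j) x) ≠ r x}

theorem measurableSet_Cm {r : Cl → ℕ} (hr : Measurable r) (m : ℕ) : MeasurableSet (Cm r m) := by
  induction m with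
  | zero => exact MeasurableSet.univ
  | succ m ih =>
    have h : Cm r (m + 1) = ⋃ n : ℕ, ⋃ j : ZMod 3,
        (r ⁻¹' {n} ∩ ((act (s n j)) ⁻¹' Cm r m ∩ ((act (s n j)) ⁻¹' (r ⁻¹' {n}))ᶜ)) := by
      ext x
      simp only [Cm, Set.mem_ofPred_eq, Set.mem_iUnion, Set.mem_inter_iff, Set.mem_preimage,
        Set.mem_singleton_iff, Set.mem_compl_iff]
      constructor
      · rintro ⟨j, h1, h2⟩
        exact ⟨r x, j, rfl, h1, h2⟩
      · rintro ⟨n, j, rfl, h1, h2⟩
        exact ⟨j, h1, h2⟩
    rw [h]
    refine MeasurableSet.iUnion fun n => MeasurableSet.iUnion fun j => ?_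
    have h1 : MeasurableSet (r ⁻¹' {n}) := hr (MeasurableSet.singleton n)
    exact h1.inter ((measurable_act _ ih).inter (measurable_act _ h1).compl)

theorem Cm_anti (r : Cl → ℕ) (m : ℕ) : Cm r (m + 1) ⊆ Cm r m := by
  induction m with
  | zero => exact Set.subset_univ _
  | succ m ih =>
    rintro x ⟨j, h1, h2⟩
    exact ⟨j, ih h1, h2⟩

theorem Cm_anti' (r : Cl → ℕ) {m m' : ℕ} (h : m ≤ m') : Cm r m' ⊆ Cm r m := by
  induction h with
  | refl => exact subset_rfl
  | step _ ih => exact (Cm_anti r _).trans ih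

/-- the centre -/
def Ce (r : Cl → ℕ) : Set Cl := ⋂ m, Cm r m

theorem measurableSet_Ce {r : Cl → ℕ} (hr : Measurable r) : MeasurableSet (Ce r) :=
  MeasurableSet.iInter fun m => measurableSet_Cm hr m

theorem Ce_step {r : Cl → ℕ} {x : Cl} (hx : x ∈ Ce r) :
    ∃ j : ZMod 3, act (s (r x) j) x ∈ Ce r ∧ r (act (s (r x) j) x) ≠ r x := by
  by_contra hcon
  push Not at hcon
  have h1 : ∀ j : ZMod 3, ∃ m, r (act (s (r x) j) x) ≠ r x → act (s (r x) j) x ∉ Cm r m := by
    intro j
    by_cases hj : act (s (r x) j) x ∈ Ce r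
    · exact ⟨0, fun h => absurd (hcon j hj) h⟩
    · unfold Ce at hj
      simp only [Set.mem_iInter, not_forall] at hj
      obtain ⟨m, hm⟩ := hj
      exact ⟨m, fun _ => hm⟩
  choose f hf using h1
  have hx1 : x ∈ Cm r ((Finset.univ.sup f) + 1) := Set.mem_iInter.1 hx _
  obtain ⟨j, h2, h3⟩ := hx1
  exact hf j h3 (Cm_anti' r (Finset.le_sup (Finset.mem_univ j)) h2)

theorem mem_Ce_of_set {r : Cl → ℕ} {K : Finset Cl}
    (hK : ∀ x ∈ K, ∃ j : ZMod 3, act (s (r x) j) x ∈ K ∧ r (act (s (r x) j) x) ≠ r x)
    {x : Cl} (hx : x ∈ K) : x ∈ Ce r := by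
  refine Set.mem_iInter.2 fun m => ?_
  induction m generalizing x with
  | zero => exact Set.mem_univ _
  | succ m ih =>
    obtain ⟨j, h1, h2⟩ := hK x hx
    exact ⟨j, ih h1, h2⟩

/-- points at distance at most `l` from the centre -/
def El (r : Cl → ℕ) : ℕ → Set Cl
  | 0 => Ce r
  | l + 1 => El r l ∪ {x | ∃ (n : ℕ) (j : ZMod 3), act (s n j) x ∈ El r l}

theorem measurableSet_El {r : Cl → ℕ} (hr : Measurable r) (l : ℕ) : MeasurableSet (El r l) := by
  induction l with
  | zero => exact measurableSet_Ce hr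
  | succ l ih =>
    have h : {x | ∃ (n : ℕ) (j : ZMod 3), act (s n j) x ∈ El r l} =
        ⋃ n : ℕ, ⋃ j : ZMod 3, (act (s n j)) ⁻¹' El r l := by
      ext x
      simp
    refine ih.union ?_
    rw [h]
    exact MeasurableSet.iUnion fun n => MeasurableSet.iUnion fun j => measurable_act _ ih

theorem mem_El_of_act {r : Cl → ℕ} (g : Lam) :
    ∀ (x : Cl) (l : ℕ), act g x ∈ El r l → ∃ l', x ∈ El r l' := by
  induction g using lam_induction' with
  | one =>
    intro x l h
    rw [act_one] at h
    exact ⟨l, h⟩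
  | step n k g ih =>
    intro x l h
    rw [act_mul] at h
    exact ih x (l + 1) (Or.inr ⟨n, k, h⟩)

/-- indices pointing towards the centre -/
def Pt (r : Cl → ℕ) (n : ℕ) : Set Cl :=
  {x | ∃ l, x ∉ El r l ∧ ∃ j : ZMod 3, act (s n j) x ∈ El r l}

theorem measurableSet_Pt {r : Cl → ℕ} (hr : Measurable r) (n : ℕ) : MeasurableSet (Pt r n) := by
  have h : Pt r n = ⋃ l : ℕ, ((El r l)ᶜ ∩ ⋃ j : ZMod 3, (act (s n j)) ⁻¹' El r l) := by
    ext x
    simp [Pt]
  rw [h]
  refine MeasurableSet.iUnion fun l => (measurableSet_El hr l).compl.inter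
    (MeasurableSet.iUnion fun j => measurable_act _ (measurableSet_El hr l))

theorem measurable_sInf {α : Type} [MeasurableSpace α] {P : ℕ → Set α}
    (hP : ∀ n, MeasurableSet (P n)) : Measurable (fun y => sInf {n | y ∈ P n}) := by
  refine measurable_to_countable' fun k => ?_
  have h : (fun y => sInf {n | y ∈ P n}) ⁻¹' {k} =
      (P k ∩ ⋂ j : ℕ, ({y | j < k}ᶜ ∪ (P j)ᶜ)) ∪ ({y | k = 0} ∩ ⋂ j : ℕ, (P j)ᶜ) := by
    ext y
    simp only [Set.mem_preimage, Set.mem_singleton_iff, Set.mem_union, Set.mem_inter_iff,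
      Set.mem_iInter, Set.mem_compl_iff, Set.mem_ofPred_eq]
    constructor
    · intro hk
      by_cases he : ∃ n, y ∈ P n
      · left
        have hne : {n | y ∈ P n}.Nonempty := he
        have h1 := Nat.sInf_mem hne
        rw [hk] at h1
        refine ⟨h1, fun j => ?_⟩
        by_cases hj : j < k
        · right
          intro hj2
          have := Nat.sInf_le (s := {n | y ∈ P n}) hj2
          omega
        · left
          exact hj
      · right
        push Not at he
        refine ⟨?_, he⟩
        have : {n | y ∈ P n} = ∅ := by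
          ext n
          simp [he n]
        rw [this] at hk
        simpa using hk.symm
    · rintro (⟨h1, h2⟩ | ⟨h1, h2⟩)
      · apply le_antisymm
        · exact Nat.sInf_le h1
        · have h3 := Nat.sInf_mem (s := {n | y ∈ P n}) ⟨k, h1⟩
          rcases h2 (sInf {n | y ∈ P n}) with h4 | h4
          · omega
          · exact absurd h3 h4
      · have : {n | y ∈ P n} = ∅ := by
          ext n
          simp [h2 n]
        rw [this, h1]
        exact Nat.sInf_empty
  rw [h]
  refine MeasurableSet.union ((hP k).inter (MeasurableSet.iInter fun j => ?_)) ?_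
  · exact (MeasurableSet.const _).compl.union (hP j).compl
  · exact (MeasurableSet.const _).inter (MeasurableSet.iInter fun j => (hP j).compl)

open Classical in
/-- the choice for one rule -/
def cyr (r : Cl → ℕ) (x : Cl) : ℕ := if x ∈ Ce r then r x else sInf {n | x ∈ Pt r n}

theorem measurable_cyr {r : Cl → ℕ} (hr : Measurable r) : Measurable (cyr r) := by
  classical
  exact Measurable.ite (measurableSet_Ce hr) hr (measurable_sInf fun n => measurableSet_Pt hr n)

theorem cyr_spec {r : Cl → ℕ} {x : Cl} {g : Lam} (hx : act g x ∈ Ce r) (n : ℕ) :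
    ¬ ∀ k : ZMod 3, cyr r (act (s n k) x) = n := by
  classical
  intro hall
  by_cases hC : ∃ k : ZMod 3, act (s n k) x ∈ Ce r
  · obtain ⟨k, hk⟩ := hC
    have h1 : r (act (s n k) x) = n := by
      have := hall k
      unfold cyr at this
      rwa [if_pos hk] at this
    obtain ⟨j, h2, h3⟩ := Ce_step hk
    rw [h1] at h2 h3
    rw [← act_mul, ← s_add] at h2 h3
    have h4 := hall (j + k)
    unfold cyr at h4
    rw [if_pos h2] at h4
    exact h3 h4
  · push Not at hC
    have hex : ∃ l, ∃ k : ZMod 3, act (s n k) x ∈ El r l := by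
      obtain ⟨l, hl⟩ := mem_El_of_act (r := r) g x 0 hx
      exact ⟨l, 0, by rw [s_zero, act_one]; exact hl⟩
    obtain ⟨k, hk⟩ := Nat.find_spec hex
    have hmin : ∀ l k, act (s n k) x ∈ El r l → Nat.find hex ≤ l :=
      fun l k h => Nat.find_min' hex ⟨k, h⟩
    -- `act (s n k) x` is closest to the centre
    have h1 := hall k
    unfold cyr at h1
    rw [if_neg (hC k)] at h1
    have h2 : ∃ m, act (s n k) x ∈ Pt r m := by
      rcases hf : Nat.find hex with _ | l
      · rw [hf] at hk
        exact absurd hk (hC k)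
      · rw [hf] at hk
        rcases hk with hk | ⟨m, j, hk⟩
        · have := hmin l k hk
          omega
        · refine ⟨m, l, ?_, j, hk⟩
          intro hk'
          have := hmin l k hk'
          omega
    have h3 := Nat.sInf_mem (s := {m | act (s n k) x ∈ Pt r m}) h2
    rw [h1] at h3
    obtain ⟨l, h4, j, h5⟩ := h3
    rw [← act_mul, ← s_add] at h5
    have h6 := hmin l _ h5
    apply h4
    -- monotonicity
    have hmono : ∀ a b, a ≤ b → El r a ⊆ El r b := by
      intro a b hab
      induction hab with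
      | refl => exact subset_rfl
      | step _ ih => exact ih.trans Set.subset_union_left
    exact hmono _ _ h6 hk

/-- the points whose orbit meets the `i`-th centre -/
def Wi (i : ℕ) : Set Cl := {x | ∃ g : Lam, act g x ∈ Ce (rr (codeE i))}

theorem measurableSet_Wi (i : ℕ) : MeasurableSet (Wi i) := by
  have h : Wi i = ⋃ g : Lam, (act g) ⁻¹' Ce (rr (codeE i)) := by
    ext x
    simp [Wi]
  rw [h]
  exact MeasurableSet.iUnion fun g => measurable_act g (measurableSet_Ce (measurable_rr _))

theorem Wi_act {i : ℕ} {g : Lam} {x : Cl} : act g x ∈ Wi i ↔ x ∈ Wi i := by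
  constructor
  · rintro ⟨h, hh⟩
    exact ⟨h * g, by rw [act_mul]; exact hh⟩
  · rintro ⟨h, hh⟩
    refine ⟨h * g⁻¹, ?_⟩
    rw [act_mul, act_inv_act]
    exact hh

/-- the domain of the cyclic choice -/
def Wcyc : Set Cl := ⋃ i, Wi i

theorem measurableSet_Wcyc : MeasurableSet Wcyc := MeasurableSet.iUnion measurableSet_Wi

theorem Wcyc_act {g : Lam} {x : Cl} : act g x ∈ Wcyc ↔ x ∈ Wcyc := by
  unfold Wcyc
  simp only [Set.mem_iUnion, Wi_act]

/-- the cyclic choice -/
def cyc (x : Cl) : ℕ := cyr (rr (codeE (sInf {i | x ∈ Wi i}))) x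

theorem measurable_cyc : Measurable cyc := by
  have h1 : Measurable (fun q : ℕ × Cl => cyr (rr (codeE q.1)) q.2) :=
    measurable_from_prod_countable_right fun i => measurable_cyr (measurable_rr (codeE i))
  exact h1.comp ((measurable_sInf measurableSet_Wi).prodMk measurable_id)

theorem cyc_spec {x : Cl} (hx : x ∈ Wcyc) (n : ℕ) :
    ¬ ∀ k : ZMod 3, cyc (act (s n k) x) = n := by
  intro hall
  have hne : {i | x ∈ Wi i}.Nonempty := Set.mem_iUnion.1 hx
  obtain ⟨g, hg⟩ := Nat.sInf_mem hne
  apply cyr_spec hg n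
  intro k
  have h := hall k
  unfold cyc at h
  simp only [Wi_act] at h
  exact h

theorem mem_Wcyc {y : Cl} (hy : y ∈ Ufr) {g : Lam} (hg : g ≠ 1) (hgy : act g y = y) :
    y ∈ Wcyc := by
  obtain ⟨K, ν, ⟨x, hx⟩, hK1, hK2⟩ := exists_good_set hy hg hgy
  obtain ⟨L, hL⟩ := interp K ν
  obtain ⟨i, rfl⟩ := codeE_surj L
  refine Set.mem_iUnion.2 ⟨i, ?_⟩
  obtain ⟨h, hh⟩ := hK1 x hx
  refine ⟨h, ?_⟩
  rw [← hh]
  refine mem_Ce_of_set (K := K) ?_ hx
  intro z hz
  obtain ⟨j, h1, h2⟩ := hK2 z hz
  rw [hL z hz]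
  exact ⟨j, h1, by rw [hL _ h1]; exact h2⟩

end Pool.Agent.RecIso72
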