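import Mathlib

set_option autoImplicit false

/-!
# Definitions: generating families of partial Borel maps, uniform universality,
# recursive isomorphism of subsets of `ℕ`
-/

noncomputable section

namespace Pool.Agent.RecIso72

/-- A sequence `(φ_n)` of partial Borel maps `φ_n : A_n → X` (with `A_n ⊆ X` Borel) such that the
family contains the identity and is closed under composition.  `dom n` is `A_n`; the values of
`map n` outside `dom n` play no role. -/
structure GenFamily (X : Type) [MeasurableSpace X] where
  dom : ℕ → Set X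
  map : ℕ → X → X
  measurableSet_dom : ∀ n, MeasurableSet (dom n)
  measurable_map : ∀ n, Measurable (fun x : dom n => map n x)
  id_mem : ∃ n, dom n = Set.univ ∧ ∀ x, map n x = x
  comp_mem : ∀ m n, ∃ k, dom k = {x | x ∈ dom n ∧ map n x ∈ dom m} ∧
    ∀ x ∈ dom k, map k x = map m (map n x)

namespace GenFamily

variable {X : Type} [MeasurableSpace X]

/-- `x R y` via the pair `(m, n)`: `φ_m(x) = y` and `φ_n(y) = x`. -/
def Via (φ : GenFamily X) (m n : ℕ) (x y : X) : Prop :=
  (x ∈ φ.dom m ∧ φ.map m x = y) ∧ (y ∈ φ.dom n ∧ φ.map n y = x)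

/-- The countable Borel equivalence relation generated by the family. -/
def Rel (φ : GenFamily X) (x y : X) : Prop := ∃ m n, φ.Via m n x y

/-- `f` is a Borel reduction from the relation of `ψ` to the relation of `φ`. -/
def IsReduction {Y : Type} [MeasurableSpace Y] (ψ : GenFamily Y) (φ : GenFamily X) (f : Y → X) :
    Prop :=
  Measurable f ∧ ∀ x y, ψ.Rel x y ↔ φ.Rel (f x) (f y)

/-- `f` is uniform with respect to `ψ` and `φ`. -/
def IsUniform {Y : Type} [MeasurableSpace Y] (ψ : GenFamily Y) (φ : GenFamily X) (f : Y → X) :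
    Prop :=
  ∃ u : ℕ × ℕ → ℕ × ℕ, ∀ m n x y, ψ.Via m n x y → φ.Via (u (m, n)).1 (u (m, n)).2 (f x) (f y)

/-- Uniform universality of the relation generated by `φ` (with respect to `φ`): every
generated relation on every standard Borel space admits a Borel reduction which is uniform. -/
def UniformlyUniversal (φ : GenFamily X) : Prop :=
  ∀ (Y : Type) [MeasurableSpace Y] [StandardBorelSpace Y] (ψ : GenFamily Y),
    ∃ f : Y → X, ψ.IsReduction φ f ∧ ψ.IsUniform φ f

end GenFamily

/-- The action of permutations of `ℕ` on `2^ℕ`: `(g · x)(n) = x(g⁻¹(n))`. -/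
def permAct (g : Equiv.Perm ℕ) (x : ℕ → Bool) : ℕ → Bool := fun n => x (g⁻¹ n)

theorem permAct_one (x : ℕ → Bool) : permAct 1 x = x := rfl

theorem permAct_mul (g h : Equiv.Perm ℕ) (x : ℕ → Bool) :
    permAct (g * h) x = permAct g (permAct h x) := by
  funext n
  unfold permAct
  rw [mul_inv_rev]
  rfl

theorem measurable_permAct (g : Equiv.Perm ℕ) : Measurable (permAct g) :=
  measurable_pi_lambda _ fun _ => measurable_pi_apply _

/-- The family `φ_n(x) = g_n · x` of an enumeration `(g_n)` of the group of all recursive
permutations of `ℕ`.  The relation it generates is recursive isomorphism of subsets of `ℕ`. -/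
def recFamily (g : ℕ → Equiv.Perm ℕ) (hg : Set.range g = {π : Equiv.Perm ℕ | Computable π}) :
    GenFamily (ℕ → Bool) where
  dom _ := Set.univ
  map n x := permAct (g n) x
  measurableSet_dom _ := MeasurableSet.univ
  measurable_map n := (measurable_permAct (g n)).comp measurable_subtype_coe
  id_mem := by
    have h : (1 : Equiv.Perm ℕ) ∈ Set.range g := by
      rw [hg]
      exact Computable.id
    obtain ⟨n, hn⟩ := h
    exact ⟨n, rfl, fun x => by rw [hn, permAct_one]⟩
  comp_mem m n := by
    have hm : g m ∈ {π : Equiv.Perm ℕ | Computable π} := by rw [← hg]; exact ⟨m, rfl⟩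
    have hn : g n ∈ {π : Equiv.Perm ℕ | Computable π} := by rw [← hg]; exact ⟨n, rfl⟩
    have h : g m * g n ∈ Set.range g := by
      rw [hg]
      exact Computable.comp (f := g m) (g := g n) hm hn
    obtain ⟨k, hk⟩ := h
    refine ⟨k, ?_, fun x _ => ?_⟩
    · ext x
      simp
    · rw [hk, permAct_mul]

end Pool.Agent.RecIso72
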