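import Pool.Agent.H71.BD.Borel

set_option autoImplicit false

/-!
# Borel determinacy for games whose outcome is a point of a product of two point spaces
-/

noncomputable section

namespace Pool.Agent.RecIso72

open Pool.Agent.H71.BD

/-- the list of the first `n` moves, the last one first -/
def hist {M : Type} (a : ℕ → M) : ℕ → List M
  | 0 => []
  | n + 1 => a n :: hist a n

theorem hist_length {M : Type} (a : ℕ → M) (n : ℕ) : (hist a n).length = n := by
  induction n with
  | zero => rfl
  | succ n ih => simp [hist, ih]

/-- the tree of finite sequences of moves -/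
def seqT (M : Type) [Inhabited M] : GTree.{0} where
  V := List M
  lev := List.length
  par := List.tail
  lev_par v := by simp
  par_root v hv := by
    rw [List.length_eq_zero_iff] at hv
    subst hv
    rfl
  pruned v := ⟨default :: v, rfl, rfl⟩

variable {M : Type} [Inhabited M] {I : Type}

/-- the play with given moves -/
def bodyOf (a : ℕ → M) : Body (seqT M) :=
  ⟨fun n => hist a n, fun n => ⟨hist_length a n, rfl⟩⟩

/-- the moves of a play -/
def moves (x : Body (seqT M)) (n : ℕ) : M := List.headI (x (n + 1) : List M)

theorem moves_bodyOf (a : ℕ → M) : moves (bodyOf a) = a := rfl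

/-- the outcome of a play -/
def outc (t : I → ℕ) (v : I → M → Bool) (a : ℕ → M) : I → Bool := fun c => v c (a (t c))

/-- the sets of outcomes whose preimage is Borel -/
@[reducible] def msOut (t : I → ℕ) (v : I → M → Bool) : MeasurableSpace (I → Bool) where
  MeasurableSet' P := BorelB {x : Body (seqT M) | outc t v (moves x) ∈ P}
  measurableSet_empty := by
    refine BorelB.opn _ ?_
    intro x hx
    exact absurd hx (by simp)
  measurableSet_compl P hP := BorelB.compl _ hP
  measurableSet_iUnion f hf := by
    have h : {x : Body (seqT M) | outc t v (moves x) ∈ ⋃ i, f i} =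
        ⋃ i, {x : Body (seqT M) | outc t v (moves x) ∈ f i} := by
      ext x
      simp
    rw [h]
    exact BorelB.union _ hf

theorem pi_le_msOut (t : I → ℕ) (v : I → M → Bool) :
    (MeasurableSpace.pi : MeasurableSpace (I → Bool)) ≤ msOut t v := by
  refine iSup_le fun c => ?_
  rintro P ⟨Q, _, rfl⟩
  refine BorelB.opn _ ?_
  intro x hx
  refine ⟨t c + 1, fun y hy => ?_⟩
  have h : moves y (t c) = moves x (t c) := by
    unfold moves
    rw [hy]
  change outc t v (moves y) c ∈ Q
  have h2 : outc t v (moves y) c = outc t v (moves x) c := by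
    unfold outc
    rw [h]
  rw [h2]
  exact hx

theorem det_seq (t : I → ℕ) (v : I → M → Bool) {P : Set (I → Bool)} (hP : MeasurableSet P) :
    (∃ τ : List M → M, ∀ a : ℕ → M, (∀ l, a (2 * l) = τ (hist a (2 * l))) → outc t v a ∉ P) ∨
    (∃ τ : List M → M, ∀ a : ℕ → M, (∀ l, a (2 * l + 1) = τ (hist a (2 * l + 1))) →
      outc t v a ∈ P) := by
  have hB : BorelB {x : Body (seqT M) | outc t v (moves x) ∈ Pᶜ} :=
    pi_le_msOut t v _ hP.compl
  have key : ∀ (σ : Strat (seqT M)) (u : List M),
      ((σ u : List M)) = List.headI (σ u : List M) :: u := by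
    intro σ u
    obtain ⟨h1, h2⟩ := σ.child u
    change ((σ u : List M)).length = u.length + 1 at h1
    change List.tail (σ u : List M) = u at h2
    rcases hh : (σ u : List M) with _ | ⟨b, r⟩
    · rw [hh] at h1
      simp at h1
    · rw [hh] at h2
      simp only [List.tail_cons] at h2
      rw [h2]
      rfl
  rcases borel_det hB ([] : List M) rfl with ⟨σ, hσ⟩ | ⟨σ, hσ⟩
  · left
    refine ⟨fun u => List.headI (σ u : List M), fun a ha => ?_⟩
    refine hσ (bodyOf a) rfl ?_
    intro n hn
    have hn' : n % 2 = 0 := by simpa using hn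
    obtain ⟨l, rfl⟩ : ∃ l, n = 2 * l := ⟨n / 2, by omega⟩
    have h1 := key σ (hist a (2 * l))
    have h2 : hist a (2 * l + 1) = a (2 * l) :: hist a (2 * l) := rfl
    have h3 : a (2 * l) = List.headI (σ (hist a (2 * l)) : List M) := ha l
    rw [h3] at h2
    exact h2.trans h1.symm
  · right
    refine ⟨fun u => List.headI (σ u : List M), fun a ha => ?_⟩
    have h := hσ (bodyOf a) rfl (by
      intro n hn
      have hn' : n % 2 = 1 := by simpa using hn
      obtain ⟨l, rfl⟩ : ∃ l, n = 2 * l + 1 := ⟨n / 2, by omega⟩
      have h1 := key σ (hist a (2 * l + 1))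
      have h2 : hist a (2 * l + 1 + 1) = a (2 * l + 1) :: hist a (2 * l + 1) := rfl
      have h3 : a (2 * l + 1) = List.headI (σ (hist a (2 * l + 1)) : List M) := ha l
      rw [h3] at h2
      exact h2.trans h1.symm)
    by_contra hc
    exact h hc

end Pool.Agent.RecIso72
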