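import Mathlib

set_option autoImplicit false

/-!
# The free product of countably many cyclic groups of order three
-/

noncomputable section

namespace Pool.Agent.RecIso72

open Monoid

/-- The cyclic group of order three, written multiplicatively. -/
abbrev Z3 : Type := Multiplicative (ZMod 3)

/-- The free product of countably many copies of the cyclic group of order three. -/
def Lam : Type := CoprodI (fun _ : ℕ => Z3)

instance : Group Lam := inferInstanceAs (Group (CoprodI (fun _ : ℕ => Z3)))

/-- the element `σ_n ^ k` -/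
def s (n : ℕ) (k : ZMod 3) : Lam :=
  (CoprodI.of (i := n) (Multiplicative.ofAdd k) : CoprodI (fun _ : ℕ => Z3))

theorem s_add (n : ℕ) (j k : ZMod 3) : s n (j + k) = s n j * s n k := by
  unfold s
  rw [ofAdd_add, map_mul]
  rfl

theorem s_zero (n : ℕ) : s n 0 = 1 := by
  unfold s
  rw [ofAdd_zero, map_one]
  rfl

theorem s_neg (n : ℕ) (k : ZMod 3) : s n (-k) = (s n k)⁻¹ := by
  rw [eq_comm, inv_eq_iff_mul_eq_one, ← s_add, add_neg_cancel, s_zero]

theorem s_comm (n : ℕ) (j k : ZMod 3) : s n j * s n k = s n k * s n j := by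
  rw [← s_add, ← s_add, add_comm]

/-- the reduced word of an element -/
def wd (g : Lam) : CoprodI.Word (fun _ : ℕ => Z3) := CoprodI.Word.equiv g

theorem wd_inj {g h : Lam} (e : wd g = wd h) : g = h := CoprodI.Word.equiv.injective e

theorem wd_one : wd 1 = CoprodI.Word.empty :=
  one_smul (CoprodI (fun _ : ℕ => Z3)) (CoprodI.Word.empty : CoprodI.Word (fun _ : ℕ => Z3))

theorem prod_wd (g : Lam) : CoprodI.Word.prod (wd g) = g := CoprodI.Word.equiv.symm_apply_apply g

theorem wd_prod (w : CoprodI.Word (fun _ : ℕ => Z3)) :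
    wd (CoprodI.Word.prod w) = w := CoprodI.Word.equiv.apply_symm_apply w

/-- the index of the first letter -/
def fst (g : Lam) : Option ℕ := (wd g).fstIdx

/-- the length -/
def len (g : Lam) : ℕ := (wd g).toList.length

theorem fst_one : fst 1 = none := by
  unfold fst
  rw [wd_one]
  rfl

theorem len_one : len 1 = 0 := by
  unfold len
  rw [wd_one]
  rfl

theorem wd_s_mul {n : ℕ} {k : ZMod 3} {g : Lam} (h : (wd g).fstIdx ≠ some n) (hk : k ≠ 0) :
    wd (s n k * g) = CoprodI.Word.cons (i := n) (Multiplicative.ofAdd k) (wd g) h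
      (by simpa using hk) := by
  have h1 : CoprodI.Word.prod (CoprodI.Word.cons (i := n) (Multiplicative.ofAdd k)
      (wd g) h (by simpa using hk)) = s n k * g := by
    refine (CoprodI.Word.prod_cons _ _ _ _ _).trans ?_
    rw [prod_wd]
    rfl
  rw [← h1, wd_prod]

theorem fst_s_mul {n : ℕ} {k : ZMod 3} {g : Lam} (h : fst g ≠ some n) (hk : k ≠ 0) :
    fst (s n k * g) = some n := by
  have h' : (wd g).fstIdx ≠ some n := h
  unfold fst
  rw [wd_s_mul h' hk]
  simp

theorem len_s_mul {n : ℕ} {k : ZMod 3} {g : Lam} (h : fst g ≠ some n) (hk : k ≠ 0) :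
    len (s n k * g) = len g + 1 := by
  have h' : (wd g).fstIdx ≠ some n := h
  unfold len
  rw [wd_s_mul h' hk]
  simp

theorem fst_eq_none {g : Lam} (h : fst g = none) : g = 1 := by
  apply wd_inj
  rw [wd_one]
  unfold fst CoprodI.Word.fstIdx at h
  apply CoprodI.Word.ext
  rcases hw : (wd g).toList with _ | ⟨a, l⟩
  · rfl
  · rw [hw] at h
    simp at h

/-- Induction on reduced words. -/
theorem lam_induction {P : Lam → Prop} (one : P 1)
    (step : ∀ n k g, k ≠ 0 → fst g ≠ some n → P g → P (s n k * g)) (g : Lam) : P g := by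
  have key : ∀ w : CoprodI.Word (fun _ : ℕ => Z3), P (CoprodI.Word.prod w) := by
    intro w
    induction w using CoprodI.Word.consRecOn with
    | empty => exact one
    | cons n m w h1 h2 ih =>
      rw [CoprodI.Word.prod_cons]
      have h3 : fst (CoprodI.Word.prod w) ≠ some n := by
        unfold fst
        rw [wd_prod]
        exact h1
      exact step n (Multiplicative.toAdd m) _ (by simpa using h2) h3 ih
  have := key (wd g)
  rwa [prod_wd] at this

theorem lam_induction' {P : Lam → Prop} (one : P 1)
    (step : ∀ n k g, P g → P (s n k * g)) (g : Lam) : P g :=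
  lam_induction one (fun n k g _ _ h => step n k g h) g

/-- The decomposition with respect to one free factor. -/
theorem exists_dec (n : ℕ) (g : Lam) : ∃ (j : ZMod 3) (h : Lam), fst h ≠ some n ∧ g = s n j * h := by
  induction g using lam_induction with
  | one => exact ⟨0, 1, by rw [fst_one]; simp, by rw [s_zero, one_mul]⟩
  | step m k g hk hg _ =>
    by_cases hmn : m = n
    · subst hmn
      exact ⟨k, g, hg, rfl⟩
    · refine ⟨0, s m k * g, ?_, by rw [s_zero, one_mul]⟩
      rw [fst_s_mul hg hk]
      simpa using hmn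

theorem dec_unique {n : ℕ} {j j' : ZMod 3} {h h' : Lam} (hh : fst h ≠ some n)
    (hh' : fst h' ≠ some n) (e : s n j * h = s n j' * h') : j = j' ∧ h = h' := by
  have key : ∀ {j : ZMod 3} {h h' : Lam}, fst h ≠ some n → fst h' ≠ some n →
      s n j * h = h' → j = 0 := by
    intro j h h' hh hh' e
    by_contra hj
    apply hh'
    rw [← e]
    exact fst_s_mul hh hj
  have h1 : s n (-j' + j) * h = h' := by
    rw [s_add, mul_assoc, e, ← mul_assoc, ← s_add, neg_add_cancel, s_zero, one_mul]
  have h2 := key hh hh' h1
  have h3 : j = j' := by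
    have : j' + (-j' + j) = j' + 0 := by rw [h2]
    rwa [add_neg_cancel_left, add_zero] at this
  subst h3
  exact ⟨rfl, mul_left_cancel e⟩

/-- the exponent in the decomposition -/
def decJ (n : ℕ) (g : Lam) : ZMod 3 := (exists_dec n g).choose
/-- the tail in the decomposition -/
def decT (n : ℕ) (g : Lam) : Lam := (exists_dec n g).choose_spec.choose

theorem decT_fst (n : ℕ) (g : Lam) : fst (decT n g) ≠ some n :=
  (exists_dec n g).choose_spec.choose_spec.1

theorem dec_eq (n : ℕ) (g : Lam) : s n (decJ n g) * decT n g = g :=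
  (exists_dec n g).choose_spec.choose_spec.2.symm

theorem decJ_s_mul {n : ℕ} {j : ZMod 3} {h : Lam} (hh : fst h ≠ some n) :
    decJ n (s n j * h) = j :=
  (dec_unique (decT_fst n _) hh (dec_eq n (s n j * h))).1

theorem decT_s_mul {n : ℕ} {j : ZMod 3} {h : Lam} (hh : fst h ≠ some n) :
    decT n (s n j * h) = h :=
  (dec_unique (decT_fst n _) hh (dec_eq n (s n j * h))).2

/-- The owner of a coordinate. -/
def own (w : Lam) (m : ℕ) : ℕ := (fst w).getD m

theorem own_one (m : ℕ) : own 1 m = m := by
  unfold own
  rw [fst_one]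
  rfl

theorem own_s_mul {n : ℕ} {k : ZMod 3} {g : Lam} (h : fst g ≠ some n) (hk : k ≠ 0) (m : ℕ) :
    own (s n k * g) m = n := by
  unfold own
  rw [fst_s_mul h hk]
  rfl

theorem own_s (n : ℕ) (k : ZMod 3) : own (s n k) n = n := by
  by_cases hk : k = 0
  · rw [hk, s_zero, own_one]
  · have := own_s_mul (n := n) (k := k) (g := 1) (by rw [fst_one]; simp) hk n
    rwa [mul_one] at this

theorem own_mul_s (w : Lam) (m : ℕ) (j : ZMod 3) : own (w * s m j) m = own w m := by
  induction w using lam_induction with
  | one => rw [one_mul, own_s, own_one]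
  | step n k g hk hg ih =>
    rw [mul_assoc, own_s_mul hg hk]
    by_cases h : fst (g * s m j) = some n
    · have h1 : own (g * s m j) m = n := by
        unfold own
        rw [h]
        rfl
      rw [h1] at ih
      have h2 : fst g = none := by
        rcases hfg : fst g with _ | a
        · rfl
        · exfalso
          unfold own at ih
          rw [hfg] at ih
          apply hg
          rw [hfg]
          exact congrArg some ih.symm
      have h3 := fst_eq_none h2
      subst h3
      rw [own_one] at ih
      subst ih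
      rw [one_mul, ← s_add, own_s]
    · exact own_s_mul h hk m

theorem fst_ne_of_own_ne {w : Lam} {m n : ℕ} (h : own w m ≠ n) : fst w ≠ some n := by
  intro h1
  apply h
  unfold own
  rw [h1]
  rfl

instance : Countable Lam := by
  have h : Function.Injective (fun g : Lam => (wd g).toList) := by
    intro g h e
    exact wd_inj (CoprodI.Word.ext e)
  exact h.countable

/-- the exponent sum -/
def chi : Lam →* Z3 := CoprodI.lift (fun _ => MonoidHom.id Z3)

theorem chi_s (n : ℕ) (k : ZMod 3) : chi (s n k) = Multiplicative.ofAdd k := by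
  unfold chi s
  exact CoprodI.lift_of _ _

end Pool.Agent.RecIso72
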