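import Pool.Agent.RecIso72.Det
import Pool.Agent.RecIso72.Lam

set_option autoImplicit false

/-!
# The game on the free product
-/

noncomputable section

namespace Pool.Agent.RecIso72

/-- colourings of `Λ × ℕ` -/
abbrev Cl : Type := Lam × ℕ → Bool

/-- the shift action -/
def act (g : Lam) (y : Cl) : Cl := fun p => y (g⁻¹ * p.1, p.2)

theorem act_one (y : Cl) : act 1 y = y := by
  funext p
  simp [act]

theorem act_mul (g h : Lam) (y : Cl) : act (g * h) y = act g (act h y) := by
  funext p
  simp [act, mul_assoc]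

/-- the triangle at `w` of kind `m` is monochromatic for the `m`-th colouring -/
def viol (y : Cl) (w : Lam) (m : ℕ) : Prop := ∀ i : ZMod 3, y (w * s m i, m) = y (w, m)

theorem viol_act {g : Lam} {y : Cl} {w : Lam} {m : ℕ} :
    viol (act g y) w m ↔ viol y (g⁻¹ * w) m := by
  unfold viol act
  simp [mul_assoc]

/-- stage at which a triangle is decided -/
def stg (w : Lam) (m : ℕ) : ℕ := max (len w) (max (len (w * s m 1)) (len (w * s m 2)))

/-- The payoff set of the first player in the `n`-th game. -/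
def Pay (c : Cl → ℕ) (n : ℕ) : Set Cl :=
  {y | (∃ p : Lam × ℕ, own p.1 p.2 = n ∧ viol y p.1 p.2 ∧
      ∀ r : Lam × ℕ, viol y r.1 r.2 → own r.1 r.2 ≠ n → stg p.1 p.2 ≤ stg r.1 r.2) ∨
    ((∀ p : Lam × ℕ, ¬ viol y p.1 p.2) ∧ c y = n)}

theorem measurableSet_viol (w : Lam) (m : ℕ) : MeasurableSet {y : Cl | viol y w m} := by
  have h : {y : Cl | viol y w m} = ⋂ i : ZMod 3, {y : Cl | y (w * s m i, m) = y (w, m)} := by
    ext y
    simp [viol]
  rw [h]
  refine MeasurableSet.iInter fun i => ?_
  exact measurableSet_eq_fun (measurable_pi_apply _) (measurable_pi_apply _)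

theorem measurableSet_Pay {c : Cl → ℕ} (hc : Measurable c) (n : ℕ) : MeasurableSet (Pay c n) := by
  have h : Pay c n =
      (⋃ p : Lam × ℕ, ({y : Cl | own p.1 p.2 = n} ∩ ({y : Cl | viol y p.1 p.2} ∩
        ⋂ r : Lam × ℕ, ({y : Cl | viol y r.1 r.2}ᶜ ∪
          {y : Cl | own r.1 r.2 ≠ n → stg p.1 p.2 ≤ stg r.1 r.2})))) ∪
      ((⋂ p : Lam × ℕ, {y : Cl | viol y p.1 p.2}ᶜ) ∩ c ⁻¹' {n}) := by
    ext y
    simp only [Pay, Set.mem_ofPred_eq, Set.mem_union, Set.mem_iUnion, Set.mem_inter_iff,
      Set.mem_iInter, Set.mem_compl_iff, Set.mem_preimage, Set.mem_singleton_iff,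
      imp_iff_not_or]
  rw [h]
  refine MeasurableSet.union (MeasurableSet.iUnion fun p => ?_) ?_
  · refine (MeasurableSet.const _).inter ((measurableSet_viol _ _).inter
      (MeasurableSet.iInter fun r => ?_))
    exact (measurableSet_viol _ _).compl.union (MeasurableSet.const _)
  · exact (MeasurableSet.iInter fun p => (measurableSet_viol _ _).compl).inter
      (hc (MeasurableSet.singleton n))

/-- time at which a coordinate is decided in the `n`-th game -/
def tm (n : ℕ) (p : Lam × ℕ) : ℕ := if own p.1 p.2 = n then 2 * len p.1 else 2 * len p.1 + 1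

/-- reading a move -/
def rdm (p : Lam × ℕ) (f : Cl) : Bool := f p

/-- Histories when the second player's strategies are combined. -/
def Hc (τ : ℕ → List Cl → Cl) : ℕ → ℕ → List Cl
  | 0, _ => []
  | l + 1, n => (fun p => τ (own p.1 p.2) (Hc τ l (own p.1 p.2)) p) :: τ n (Hc τ l n) :: Hc τ l n

/-- The moves in the `n`-th game when the strategies are combined. -/
def Ac (τ : ℕ → List Cl → Cl) (n : ℕ) (j : ℕ) : Cl :=
  if j % 2 = 0 then τ n (Hc τ (j / 2) n)
  else fun p => τ (own p.1 p.2) (Hc τ (j / 2) (own p.1 p.2)) p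

theorem Ac_even (τ : ℕ → List Cl → Cl) (n l : ℕ) : Ac τ n (2 * l) = τ n (Hc τ l n) := by
  have h1 : 2 * l % 2 = 0 := by omega
  have h2 : 2 * l / 2 = l := by omega
  unfold Ac
  rw [if_pos h1, h2]

theorem Ac_odd (τ : ℕ → List Cl → Cl) (n l : ℕ) : Ac τ n (2 * l + 1) =
    fun p => τ (own p.1 p.2) (Hc τ l (own p.1 p.2)) p := by
  have h1 : ¬ (2 * l + 1) % 2 = 0 := by omega
  have h2 : (2 * l + 1) / 2 = l := by omega
  unfold Ac
  rw [if_neg h1, h2]

theorem hist_Ac (τ : ℕ → List Cl → Cl) (n l : ℕ) : hist (Ac τ n) (2 * l) = Hc τ l n := by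
  induction l with
  | zero => rfl
  | succ l ih =>
    have h : hist (Ac τ n) (2 * (l + 1)) =
        Ac τ n (2 * l + 1) :: Ac τ n (2 * l) :: hist (Ac τ n) (2 * l) := rfl
    rw [h, ih, Ac_even, Ac_odd]
    rfl

theorem not_all_second (c : Cl → ℕ) (τ : ℕ → List Cl → Cl)
    (hτ : ∀ n, ∀ a : ℕ → Cl, (∀ l, a (2 * l) = τ n (hist a (2 * l))) →
      outc (tm n) rdm a ∉ Pay c n) : False := by
  set y : Cl := fun p => τ (own p.1 p.2) (Hc τ (len p.1) (own p.1 p.2)) p with hy
  have hout : ∀ n, outc (tm n) rdm (Ac τ n) = y := by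
    intro n
    funext p
    unfold outc tm rdm
    by_cases h : own p.1 p.2 = n
    · rw [if_pos h, Ac_even, hy]
      subst h
      rfl
    · rw [if_neg h, Ac_odd]
  have hn : ∀ n, y ∉ Pay c n := by
    intro n
    rw [← hout n]
    refine hτ n (Ac τ n) fun l => ?_
    rw [hist_Ac, Ac_even]
  by_cases hv : ∃ p : Lam × ℕ, viol y p.1 p.2
  · have hex : ∃ m, ∃ p : Lam × ℕ, viol y p.1 p.2 ∧ stg p.1 p.2 = m := by
      obtain ⟨p, hp⟩ := hv
      exact ⟨_, p, hp, rfl⟩
    classical
    obtain ⟨p, hp, hm⟩ := Nat.find_spec hex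
    apply hn (own p.1 p.2)
    left
    refine ⟨p, rfl, hp, fun r hr _ => ?_⟩
    rw [hm]
    exact Nat.find_min' hex ⟨r, hr, rfl⟩
  · push Not at hv
    exact hn (c y) (Or.inr ⟨hv, rfl⟩)

/-! ### Frames -/

/-- a nonconstant pattern -/
def pat (k : ZMod 3) : Bool := decide (k = 0)

theorem pat_ne (k : ZMod 3) : ¬ ∀ i : ZMod 3, pat (k + i) = pat k := by
  revert k
  decide

/-- The moves of the second player in a frame. -/
def Bm (n : ℕ) (Y : ZMod 3 → Cl) (k : ZMod 3) : Cl := by
  classical
  exact fun p => if p.1 = 1 then pat k else Y (k + decJ n p.1) (decT n p.1, p.2)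

/-- The state of the frames after each round. -/
def Fs (τ : List Cl → Cl) (n : ℕ) : ℕ → ZMod 3 → List Cl × Cl
  | 0, _ => ([], fun _ => false)
  | l + 1, k =>
    (τ (Bm n (fun j => (Fs τ n l j).2) k :: (Fs τ n l k).1) ::
      Bm n (fun j => (Fs τ n l j).2) k :: (Fs τ n l k).1,
     fun p => if own p.1 p.2 = n then Bm n (fun j => (Fs τ n l j).2) k p
      else τ (Bm n (fun j => (Fs τ n l j).2) k :: (Fs τ n l k).1) p)

/-- second player's move in frame `k` in round `l` -/
def FB (τ : List Cl → Cl) (n : ℕ) (l : ℕ) (k : ZMod 3) : Cl := Bm n (fun j => (Fs τ n l j).2) k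

/-- first player's move in frame `k` in round `l` -/
def FA (τ : List Cl → Cl) (n : ℕ) (l : ℕ) (k : ZMod 3) : Cl := τ (FB τ n l k :: (Fs τ n l k).1)

theorem Fs_succ_fst (τ : List Cl → Cl) (n l : ℕ) (k : ZMod 3) :
    (Fs τ n (l + 1) k).1 = FA τ n l k :: FB τ n l k :: (Fs τ n l k).1 := rfl

theorem Fs_succ_snd (τ : List Cl → Cl) (n l : ℕ) (k : ZMod 3) (p : Lam × ℕ) :
    (Fs τ n (l + 1) k).2 p = if own p.1 p.2 = n then FB τ n l k p else FA τ n l k p := rfl

/-- moves in frame `k` -/
def Fm (τ : List Cl → Cl) (n : ℕ) (k : ZMod 3) (j : ℕ) : Cl :=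
  if j % 2 = 0 then FB τ n (j / 2) k else FA τ n (j / 2) k

theorem Fm_even (τ : List Cl → Cl) (n : ℕ) (k : ZMod 3) (l : ℕ) :
    Fm τ n k (2 * l) = FB τ n l k := by
  have h1 : 2 * l % 2 = 0 := by omega
  have h2 : 2 * l / 2 = l := by omega
  unfold Fm
  rw [if_pos h1, h2]

theorem Fm_odd (τ : List Cl → Cl) (n : ℕ) (k : ZMod 3) (l : ℕ) :
    Fm τ n k (2 * l + 1) = FA τ n l k := by
  have h1 : ¬ (2 * l + 1) % 2 = 0 := by omega
  have h2 : (2 * l + 1) / 2 = l := by omega
  unfold Fm
  rw [if_neg h1, h2]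

theorem hist_Fm (τ : List Cl → Cl) (n : ℕ) (k : ZMod 3) (l : ℕ) :
    hist (Fm τ n k) (2 * l) = (Fs τ n l k).1 := by
  induction l with
  | zero => rfl
  | succ l ih =>
    have h : hist (Fm τ n k) (2 * (l + 1)) =
        Fm τ n k (2 * l + 1) :: Fm τ n k (2 * l) :: hist (Fm τ n k) (2 * l) := rfl
    rw [h, ih, Fm_even, Fm_odd]
    rfl

/-- the resulting colouring in frame `k` -/
def Fy (τ : List Cl → Cl) (n : ℕ) (k : ZMod 3) : Cl := fun p => (Fs τ n (len p.1 + 1) k).2 p

theorem outc_Fm (τ : List Cl → Cl) (n : ℕ) (k : ZMod 3) :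
    outc (tm n) rdm (Fm τ n k) = Fy τ n k := by
  funext p
  unfold outc tm rdm Fy
  rw [Fs_succ_snd]
  by_cases h : own p.1 p.2 = n
  · rw [if_pos h, if_pos h, Fm_even]
  · rw [if_neg h, if_neg h, Fm_odd]

theorem Fy_one (τ : List Cl → Cl) (n : ℕ) (k : ZMod 3) : Fy τ n k (1, n) = pat k := by
  unfold Fy
  rw [Fs_succ_snd, if_pos (own_one n)]
  unfold FB Bm
  rw [if_pos rfl]

theorem Fy_shift_aux (τ : List Cl → Cl) (n : ℕ) (k j : ZMod 3) (w : Lam) (m : ℕ)
    (hw : fst w ≠ some n) (hj : j ≠ 0) : Fy τ n k (s n j * w, m) = Fy τ n (k + j) (w, m) := by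
  unfold Fy
  rw [Fs_succ_snd, if_pos (own_s_mul hw hj m)]
  have h1 : s n j * w ≠ 1 := by
    intro h
    have := fst_s_mul hw hj
    rw [h, fst_one] at this
    simp at this
  unfold FB Bm
  simp only
  rw [if_neg h1, decJ_s_mul hw, decT_s_mul hw, len_s_mul hw hj]

theorem Fy_shift (τ : List Cl → Cl) (n : ℕ) (k j : ZMod 3) (w : Lam) (m : ℕ) :
    Fy τ n k (s n j * w, m) = Fy τ n (k + j) (w, m) := by
  have aux : ∀ (k j : ZMod 3) (w : Lam), fst w ≠ some n →
      Fy τ n k (s n j * w, m) = Fy τ n (k + j) (w, m) := by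
    intro k j w hw
    by_cases hj : j = 0
    · subst hj
      rw [s_zero, one_mul, add_zero]
    · exact Fy_shift_aux τ n k j w m hw hj
  have h := dec_eq n w
  rw [← h, ← mul_assoc, ← s_add, aux k _ _ (decT_fst n w), aux (k + j) _ _ (decT_fst n w),
    add_assoc]

/-- The determinacy consequence. -/
theorem thmM (c : Cl → ℕ) (hc : Measurable c) :
    ∃ y : Cl, (∀ w m, ¬ viol y w m) ∧ ∃ n : ℕ, ∀ k : ZMod 3, c (act (s n k) y) = n := by
  by_cases hall : ∀ n, ∃ τ : List Cl → Cl, ∀ a : ℕ → Cl,
      (∀ l, a (2 * l) = τ (hist a (2 * l))) → outc (tm n) rdm a ∉ Pay c n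
  · exfalso
    choose τ hτ using hall
    exact not_all_second c τ hτ
  · push Not at hall
    obtain ⟨n, hn⟩ := hall
    rcases det_seq (M := Cl) (tm n) rdm (measurableSet_Pay hc n) with h | ⟨τ, hτ⟩
    · exfalso
      obtain ⟨τ, hτ⟩ := h
      obtain ⟨a, ha, hm⟩ := hn τ
      exact hτ a ha hm
    · have hF : ∀ k, Fy τ n k ∈ Pay c n := by
        intro k
        rw [← outc_Fm]
        refine hτ _ fun l => ?_
        have h : hist (Fm τ n k) (2 * l + 1) = Fm τ n k (2 * l) :: hist (Fm τ n k) (2 * l) := rfl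
        rw [h, Fm_odd, Fm_even, hist_Fm]
        rfl
      -- no violations
      have hno : ∀ k w m, ¬ viol (Fy τ n k) w m := by
        by_contra hcon
        push Not at hcon
        have hex : ∃ e, ∃ (k : ZMod 3) (p : Lam × ℕ), viol (Fy τ n k) p.1 p.2 ∧
            stg p.1 p.2 = e := by
          obtain ⟨k, w, m, h⟩ := hcon
          exact ⟨_, k, (w, m), h, rfl⟩
        classical
        have hmin : ∀ (k : ZMod 3) (p : Lam × ℕ), viol (Fy τ n k) p.1 p.2 →
            Nat.find hex ≤ stg p.1 p.2 := fun k p hp => Nat.find_min' hex ⟨k, p, hp, rfl⟩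
        obtain ⟨k, p, hp, hpe⟩ := Nat.find_spec hex
        -- a minimal violation owned by `n`
        have hex2 : ∃ p : Lam × ℕ, own p.1 p.2 = n ∧ viol (Fy τ n k) p.1 p.2 ∧
            stg p.1 p.2 ≤ Nat.find hex := by
          by_cases ho : own p.1 p.2 = n
          · exact ⟨p, ho, hp, le_of_eq hpe⟩
          · rcases hF k with ⟨r, hr1, hr2, hr3⟩ | ⟨h1, _⟩
            · exact ⟨r, hr1, hr2, (hr3 p hp ho).trans (le_of_eq hpe)⟩
            · exact absurd hp (h1 p)
        obtain ⟨⟨w, m⟩, ho, hv, hle⟩ := hex2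
        simp only at ho hv hle
        set j := decJ n w with hj
        set w' := decT n w with hw'
        have hww : w = s n j * w' := (dec_eq n w).symm
        have hfw : fst w' ≠ some n := decT_fst n w
        have hv' : viol (Fy τ n (k + j)) w' m := by
          intro i
          rw [← Fy_shift, ← Fy_shift, ← mul_assoc, ← hww]
          exact hv i
        by_cases ho' : own w' m = n
        · -- then `w' = 1` and `m = n`
          have h1 : fst w' = none := by
            rcases h : fst w' with _ | a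
            · rfl
            · exfalso
              apply hfw
              unfold own at ho'
              rw [h] at ho'
              rw [h]
              exact congrArg some ho'
          have h2 := fst_eq_none h1
          rw [h2, own_one] at ho'
          subst ho'
          apply pat_ne (k + j)
          intro i
          have := hv' i
          rw [h2, one_mul] at this
          have h3 := Fy_shift τ m (k + j) i 1 m
          rw [mul_one] at h3
          rw [h3, Fy_one, Fy_one] at this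
          exact this
        · have hj0 : j ≠ 0 := by
            intro h0
            rw [h0, s_zero, one_mul] at hww
            rw [← hww] at ho'
            exact ho' ho
          have hlen : ∀ i : ZMod 3, len (w * s m i) = len (w' * s m i) + 1 := by
            intro i
            rw [hww, mul_assoc]
            refine len_s_mul ?_ hj0
            apply fst_ne_of_own_ne (m := m)
            rw [own_mul_s]
            exact ho'
          have hlen0 : len w = len w' + 1 := by
            have := hlen 0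
            rwa [s_zero, mul_one, mul_one] at this
          have h1 := hmin (k + j) (w', m) hv'
          unfold stg at h1 hle
          simp only at h1
          rw [hlen0, hlen 1, hlen 2] at hle
          omega
      refine ⟨Fy τ n 0, hno 0, n, fun k => ?_⟩
      have h1 : act (s n k) (Fy τ n 0) = Fy τ n (-k) := by
        funext p
        unfold act
        rw [← s_neg, Fy_shift, zero_add]
      rw [h1]
      rcases hF (-k) with ⟨r, _, hr2, _⟩ | ⟨_, h2⟩
      · exact absurd hr2 (hno (-k) r.1 r.2)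
      · exact h2

end Pool.Agent.RecIso72
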