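import Mathlib

set_option autoImplicit false

/-!
# Words in a sequence of permutations: the two extension lemmas
-/

noncomputable section

namespace Pool.Agent.RecIso72

variable (T : ℕ → Equiv.Perm ℕ)

/-- the product of a list of generators -/
def wv (L : List ℕ) : Equiv.Perm ℕ := (L.map T).prod

theorem wv_nil : wv T [] = 1 := rfl

theorem wv_cons (j : ℕ) (L : List ℕ) : wv T (j :: L) = T j * wv T L := by simp [wv]

theorem wv_append (L L' : List ℕ) : wv T (L ++ L') = wv T L * wv T L' := by simp [wv]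

/-- the group generated by all the permutations -/
def Gall : Subgroup (Equiv.Perm ℕ) := Subgroup.closure (Set.range T)

/-- the group generated by the first `i` permutations -/
def Gi (i : ℕ) : Subgroup (Equiv.Perm ℕ) := Subgroup.closure (T '' {j | j < i})

theorem Gi_mono {i i' : ℕ} (h : i ≤ i') : Gi T i ≤ Gi T i' :=
  Subgroup.closure_mono (Set.image_mono fun _ hj => lt_of_lt_of_le hj h)

theorem mem_Gi {j i : ℕ} (h : j < i) : T j ∈ Gi T i := Subgroup.subset_closure ⟨j, h, rfl⟩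

theorem exists_Gi {g : Equiv.Perm ℕ} (h : g ∈ Gall T) : ∃ N, g ∈ Gi T N := by
  unfold Gall at h
  induction h using Subgroup.closure_induction with
  | mem x hx =>
    obtain ⟨j, rfl⟩ := hx
    exact ⟨j + 1, mem_Gi T (Nat.lt_succ_self j)⟩
  | one => exact ⟨0, Subgroup.one_mem _⟩
  | mul x y _ _ hx hy =>
    obtain ⟨N, hN⟩ := hx
    obtain ⟨N', hN'⟩ := hy
    exact ⟨max N N', Subgroup.mul_mem _ (Gi_mono T (le_max_left _ _) hN)
      (Gi_mono T (le_max_right _ _) hN')⟩
  | inv x _ hx =>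
    obtain ⟨N, hN⟩ := hx
    exact ⟨N, Subgroup.inv_mem _ hN⟩

/-- being in the same orbit -/
def Orb (n m : ℕ) : Prop := ∃ g ∈ Gall T, g n = m

theorem Orb.refl (n : ℕ) : Orb T n n := ⟨1, Subgroup.one_mem _, rfl⟩

theorem Orb.symm {n m : ℕ} (h : Orb T n m) : Orb T m n := by
  obtain ⟨g, hg, rfl⟩ := h
  exact ⟨g⁻¹, Subgroup.inv_mem _ hg, by simp⟩

theorem Orb.trans {n m k : ℕ} (h : Orb T n m) (h' : Orb T m k) : Orb T n k := by
  obtain ⟨g, hg, rfl⟩ := h
  obtain ⟨g', hg', rfl⟩ := h'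
  exact ⟨g' * g, Subgroup.mul_mem _ hg' hg, rfl⟩

theorem mem_Gall (j : ℕ) : T j ∈ Gall T := Subgroup.subset_closure ⟨j, rfl⟩

theorem wv_mem_Gall (L : List ℕ) : wv T L ∈ Gall T := by
  induction L with
  | nil => exact Subgroup.one_mem _
  | cons j L ih =>
    rw [wv_cons]
    exact Subgroup.mul_mem _ (mem_Gall T j) ih

/-- A permutation mapping a finite set into itself maps it onto itself. -/
theorem maps_inv {A : Set ℕ} (hA : A.Finite) {f : Equiv.Perm ℕ} (h : ∀ x ∈ A, f x ∈ A) :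
    ∀ x ∈ A, f⁻¹ x ∈ A := by
  intro x hx
  have h1 : f '' A ⊆ A := by
    rintro _ ⟨y, hy, rfl⟩
    exact h y hy
  have h2 : f '' A = A := by
    refine Set.eq_of_subset_of_ncard_le h1 ?_ hA
    rw [Set.ncard_image_of_injective _ f.injective]
  rw [← h2] at hx
  obtain ⟨y, hy, rfl⟩ := hx
  simpa using hy

theorem stable_of_gen {A : Set ℕ} (hA : A.Finite) {i : ℕ} (h : ∀ j < i, ∀ x ∈ A, T j x ∈ A)
    {g : Equiv.Perm ℕ} (hg : g ∈ Gi T i) : ∀ x ∈ A, g x ∈ A := by
  unfold Gi at hg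
  induction hg using Subgroup.closure_induction with
  | mem x hx =>
    obtain ⟨j, hj, rfl⟩ := hx
    exact h j hj
  | one => exact fun x hx => hx
  | mul x y _ _ hx hy => exact fun z hz => hx _ (hy z hz)
  | inv x _ hx => exact maps_inv hA hx

/-- The extension lemma for the domain. -/
theorem dom_step (b n : ℕ) (R : Finset ℕ) (h : ∃ x, Orb T n x ∧ x ∉ R) :
    ∃ (i : ℕ) (L : List ℕ), b ≤ i ∧ (∀ j ∈ L, j < i) ∧ (T i * wv T L)⁻¹ n ∉ R := by
  classical
  by_contra hcon
  push Not at hcon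
  have hcon' : ∀ i, b ≤ i → ∀ L : List ℕ, (∀ j ∈ L, j < i) → (wv T L)⁻¹ ((T i)⁻¹ n) ∈ R := by
    intro i hi L hL
    have := hcon i L hi hL
    rwa [mul_inv_rev] at this
  -- stability
  have hstab : ∀ i, b ≤ i → ∀ g ∈ Gi T i, g ((T i)⁻¹ n) ∈ R := by
    intro i hi g hg
    set A : Set ℕ := {x | ∃ L : List ℕ, (∀ j ∈ L, j < i) ∧ x = (wv T L)⁻¹ ((T i)⁻¹ n)} with hA
    have hAR : A ⊆ R := by
      rintro x ⟨L, hL, rfl⟩
      exact hcon' i hi L hL
    have hfin : A.Finite := (Finset.finite_toSet R).subset hAR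
    have hst : ∀ j < i, ∀ x ∈ A, (T j) x ∈ A := by
      intro j hj
      have h1 : ∀ x ∈ A, (T j)⁻¹ x ∈ A := by
        rintro x ⟨L, hL, rfl⟩
        refine ⟨L ++ [j], ?_, ?_⟩
        · intro k hk
          rcases List.mem_append.1 hk with hk | hk
          · exact hL k hk
          · rw [List.mem_singleton] at hk
            rw [hk]; exact hj
        · rw [wv_append, wv_cons, wv_nil, mul_one, mul_inv_rev]
          rfl
      have h2 := maps_inv hfin h1
      simpa using h2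
    exact hAR (stable_of_gen T hfin hst hg _ ⟨[], by simp, rfl⟩)
  -- pigeonhole
  have hpig : ∃ p, ∀ N, ∃ i, N ≤ i ∧ b ≤ i ∧ (T i)⁻¹ n = p := by
    by_contra hno
    push Not at hno
    choose f hf using hno
    set i := max b (R.sup f) with hi
    have h1 : (T i)⁻¹ n ∈ R := hstab i (le_max_left _ _) 1 (Subgroup.one_mem _)
    exact hf ((T i)⁻¹ n) i ((Finset.le_sup h1).trans (le_max_right _ _)) (le_max_left _ _) rfl
  obtain ⟨p, hp⟩ := hpig
  obtain ⟨x, ⟨g, hg, rfl⟩, hx⟩ := h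
  obtain ⟨N, hN⟩ := exists_Gi T hg
  obtain ⟨i₁, _, _, h1⟩ := hp 0
  obtain ⟨i₂, h2, h3, h4⟩ := hp (max N (i₁ + 1))
  apply hx
  have h5 : n = T i₁ p := by rw [← h1]; simp
  have h6 := hstab i₂ h3 (g * T i₁) (Subgroup.mul_mem _
    (Gi_mono T ((le_max_left _ _).trans h2) hN)
    (mem_Gi T (lt_of_lt_of_le (Nat.lt_succ_self i₁) ((le_max_right _ _).trans h2))))
  rw [h4] at h6
  rw [h5]
  exact h6

/-- The extension lemma for the range. -/
theorem ran_step (b m : ℕ) (D : Finset ℕ) (h : ∃ x, Orb T m x ∧ x ∉ D) :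
    ∃ (i : ℕ) (L : List ℕ), b ≤ i ∧ (∀ j ∈ L, j < i) ∧ (T i * wv T L) m ∉ D := by
  classical
  by_contra hcon
  push Not at hcon
  let B : ℕ → Set ℕ := fun i => {x | ∃ L : List ℕ, (∀ j ∈ L, j < i) ∧ x = wv T L m}
  have hBD : ∀ i, b ≤ i → T i '' B i ⊆ D := by
    rintro i hi _ ⟨_, ⟨L, hL, rfl⟩, rfl⟩
    exact hcon i L hi hL
  have hfin : ∀ i, b ≤ i → (B i).Finite := fun i hi =>
    ((Finset.finite_toSet D).subset (hBD i hi)).of_finite_image (T i).injective.injOn
  have hcard : ∀ i, b ≤ i → (B i).ncard ≤ D.card := by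
    intro i hi
    rw [← Set.ncard_image_of_injective _ (T i).injective, ← Set.ncard_coe_finset D]
    exact Set.ncard_le_ncard (hBD i hi) (Finset.finite_toSet D)
  have hmono : ∀ i, B i ⊆ B (i + 1) := by
    rintro i x ⟨L, hL, rfl⟩
    exact ⟨L, fun j hj => (hL j hj).trans (Nat.lt_succ_self i), rfl⟩
  have hst : ∀ i, ∀ j < i, ∀ x ∈ B i, T j x ∈ B i := by
    rintro i j hj x ⟨L, hL, rfl⟩
    refine ⟨j :: L, ?_, by rw [wv_cons]; rfl⟩
    intro k hk
    rcases List.mem_cons.1 hk with rfl | hk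
    · exact hj
    · exact hL k hk
  obtain ⟨x, ⟨g, hg, rfl⟩, hx⟩ := h
  obtain ⟨N, hN⟩ := exists_Gi T hg
  set N' := max b N with hN'
  have hex : ∃ i, N' ≤ i ∧ (B (i + 1)).ncard ≤ (B i).ncard := by
    by_contra hno
    push Not at hno
    have h1 : ∀ k, k ≤ (B (N' + k)).ncard := by
      intro k
      induction k with
      | zero => exact Nat.zero_le _
      | succ k ih =>
        have := hno (N' + k) (Nat.le_add_right _ _)
        have h2 : N' + (k + 1) = N' + k + 1 := by omega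
        rw [h2]
        omega
    have h2 := h1 (D.card + 1)
    have h3 := hcard (N' + (D.card + 1)) ((le_max_left _ _).trans (Nat.le_add_right _ _))
    omega
  obtain ⟨i, hi, hle⟩ := hex
  have hbi : b ≤ i := (le_max_left _ _).trans hi
  have heq : B i = B (i + 1) :=
    Set.eq_of_subset_of_ncard_le (hmono i) hle (hfin (i + 1) (by omega))
  have hTi : ∀ y ∈ B i, T i y ∈ B i := by
    intro y hy
    rw [heq] at hy ⊢
    exact hst (i + 1) i (Nat.lt_succ_self i) y hy
  have hgm : g m ∈ B i :=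
    stable_of_gen T (hfin i hbi) (hst i) (Gi_mono T ((le_max_right _ _).trans hi) hN) m
      ⟨[], by simp, rfl⟩
  apply hx
  have h1 : (T i)⁻¹ (g m) ∈ B i := maps_inv (hfin i hbi) hTi _ hgm
  have h2 := hBD i hbi ⟨_, h1, rfl⟩
  simpa using h2

end Pool.Agent.RecIso72
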