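import Pool.Agent.RecIso72.GreedyA

set_option autoImplicit false

/-!
# The greedy recursive permutation
-/

noncomputable section

namespace Pool.Agent.RecIso72

theorem rfind_eq {p : ℕ → Bool} {k : ℕ} (h1 : p k = true) (h2 : ∀ m < k, p m = false) :
    Nat.rfind (fun n => (Part.some (p n) : Part Bool)) = Part.some k :=
  Part.eq_some_iff.2 (Nat.mem_rfind.2 ⟨by rw [← h1]; exact Part.mem_some _,
    fun {m} hm => by rw [← h2 m hm]; exact Part.mem_some _⟩)

theorem computable_find {α : Type} [Primcodable α] {p : α → ℕ → Bool} (hp : Computable₂ p)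
    {f : α → ℕ} (hf : ∀ a, p a (f a) = true)
    (hmin : ∀ a n, n < f a → p a n = false) : Computable f := by
  have h1 : Partrec fun a => Nat.rfind (fun n => (Part.some (p a n) : Part Bool)) :=
    Partrec.rfind hp.partrec₂
  exact (h1.of_eq fun a => rfind_eq (hf a) (hmin a) :
    Partrec fun a => (Part.some (f a) : Part ℕ))

theorem foldl_take (h : ℕ → ℕ → ℕ) (L : List ℕ) (x : ℕ) (k : ℕ) (hk : k ≤ L.length) :
    (Nat.rec (motive := fun _ => ℕ) x
      (fun y IH => Option.casesOn (motive := fun _ => ℕ) (L[y]?) IH (fun j => h IH j)) k) =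
      (L.take k).foldl h x := by
  induction k with
  | zero => simp
  | succ k ih =>
    have hk' : k < L.length := hk
    have h1 := ih hk'.le
    have h2 : L.take (k + 1) = L.take k ++ [L[k]] := by
      rw [List.take_append_getElem]
    rw [h2, List.foldl_append]
    simp only
    rw [h1, List.getElem?_eq_getElem hk']
    rfl

theorem computable_foldl {h : ℕ → ℕ → ℕ} (hh : Computable₂ h) :
    Computable₂ fun (L : List ℕ) (x : ℕ) => L.foldl h x := by
  have h1 : Computable (fun q : List ℕ × ℕ => Nat.rec (motive := fun _ => ℕ) q.2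
      (fun y IH => Option.casesOn (motive := fun _ => ℕ) (q.1[y]?) IH (fun j => h IH j))
      q.1.length) := by
    refine Computable.nat_rec (f := fun q : List ℕ × ℕ => q.1.length) (g := fun q => q.2)
      (h := fun q p => Option.casesOn (motive := fun _ => ℕ) (q.1[p.1]?) p.2 (fun j => h p.2 j))
      (Computable.list_length.comp Computable.fst) Computable.snd ?_
    refine Computable.option_casesOn (o := fun r : (List ℕ × ℕ) × (ℕ × ℕ) => r.1.1[r.2.1]?)
      (f := fun r => r.2.2) (g := fun r j => h r.2.2 j) ?_ ?_ ?_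
    · exact Computable.list_getElem?.comp (Computable.fst.comp Computable.fst)
        (Computable.fst.comp Computable.snd)
    · exact Computable.snd.comp Computable.snd
    · exact hh.comp (Computable.snd.comp (Computable.snd.comp Computable.fst)) Computable.snd
  refine h1.of_eq fun q => ?_
  rw [foldl_take h q.1 q.2 q.1.length le_rfl, List.take_length]

/-- entries `(n, m, i, L)` -/
abbrev Ent : Type := ℕ × ℕ × ℕ × List ℕ
/-- states: a list of entries and a bound -/
abbrev Sta : Type := List Ent × ℕ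

variable (T : ℕ → Equiv.Perm ℕ)

/-- inverse action of a word -/
def bw (L : List ℕ) (x : ℕ) : ℕ := L.foldl (fun a j => (T j)⁻¹ a) x
/-- action of a word -/
def fw (L : List ℕ) (x : ℕ) : ℕ := L.reverse.foldl (fun a j => T j a) x

theorem bw_eq (L : List ℕ) (x : ℕ) : bw T L x = (wv T L)⁻¹ x := by
  induction L generalizing x with
  | nil => rfl
  | cons j L ih =>
    rw [wv_cons, mul_inv_rev, Equiv.Perm.mul_apply, ← ih]
    rfl

theorem fw_eq (L : List ℕ) (x : ℕ) : fw T L x = wv T L x := by
  unfold fw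
  rw [List.foldl_reverse]
  induction L with
  | nil => rfl
  | cons j L ih =>
    rw [wv_cons, Equiv.Perm.mul_apply, ← ih]
    rfl

/-- the candidate entry with code `e` at stage `t` -/
def cand (t e : ℕ) : Ent :=
  if t % 2 = 0 then
    (t / 2, bw T (Denumerable.ofNat (ℕ × List ℕ) e).2 ((T (Denumerable.ofNat (ℕ × List ℕ) e).1)⁻¹
      (t / 2)), (Denumerable.ofNat (ℕ × List ℕ) e).1, (Denumerable.ofNat (ℕ × List ℕ) e).2)
  else
    (T (Denumerable.ofNat (ℕ × List ℕ) e).1 (fw T (Denumerable.ofNat (ℕ × List ℕ) e).2 (t / 2)),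
      t / 2, (Denumerable.ofNat (ℕ × List ℕ) e).1, (Denumerable.ofNat (ℕ × List ℕ) e).2)

/-- nothing to be done -/
def skp (q : ℕ × List Ent) : Prop :=
  (q.1 % 2 = 0 ∧ ∃ a ∈ q.2, a.1 = q.1 / 2) ∨ (¬ q.1 % 2 = 0 ∧ ∃ a ∈ q.2, a.2.1 = q.1 / 2)

/-- the candidate is fine -/
def okk (q : Sta × Ent) : Prop :=
  q.1.2 ≤ q.2.2.2.1 ∧ (∀ j ∈ q.2.2.2.2, j < q.2.2.2.1) ∧
    (¬ ∃ a ∈ q.1.1, a.1 = q.2.1) ∧ ¬ ∃ a ∈ q.1.1, a.2.1 = q.2.2.1

theorem primrec_skp : PrimrecPred skp := by
  have h1 : PrimrecRel fun (L : List Ent) (b : ℕ) => ∃ a ∈ L, a.1 = b :=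
    PrimrecRel.exists_mem_list (R := fun (a : Ent) (b : ℕ) => a.1 = b)
      (Primrec.eq.comp (Primrec.fst.comp Primrec.fst) Primrec.snd)
  have h2 : PrimrecRel fun (L : List Ent) (b : ℕ) => ∃ a ∈ L, a.2.1 = b :=
    PrimrecRel.exists_mem_list (R := fun (a : Ent) (b : ℕ) => a.2.1 = b)
      (Primrec.eq.comp (Primrec.fst.comp (Primrec.snd.comp Primrec.fst)) Primrec.snd)
  have h3 : Primrec fun q : ℕ × List Ent => q.1 / 2 :=
    Primrec.nat_div.comp Primrec.fst (Primrec.const 2)
  have h4 : PrimrecPred fun q : ℕ × List Ent => q.1 % 2 = 0 :=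
    Primrec.eq.comp (Primrec.nat_mod.comp Primrec.fst (Primrec.const 2)) (Primrec.const 0)
  exact (h4.and (h1.comp Primrec.snd h3)).or (h4.not.and (h2.comp Primrec.snd h3))

theorem primrec_okk : PrimrecPred okk := by
  have h1 : PrimrecRel fun (L : List Ent) (b : ℕ) => ∃ a ∈ L, a.1 = b :=
    PrimrecRel.exists_mem_list (R := fun (a : Ent) (b : ℕ) => a.1 = b)
      (Primrec.eq.comp (Primrec.fst.comp Primrec.fst) Primrec.snd)
  have h2 : PrimrecRel fun (L : List Ent) (b : ℕ) => ∃ a ∈ L, a.2.1 = b :=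
    PrimrecRel.exists_mem_list (R := fun (a : Ent) (b : ℕ) => a.2.1 = b)
      (Primrec.eq.comp (Primrec.fst.comp (Primrec.snd.comp Primrec.fst)) Primrec.snd)
  have h3 : PrimrecRel fun (L : List ℕ) (b : ℕ) => ∀ j ∈ L, j < b :=
    PrimrecRel.forall_mem_list (R := fun (a : ℕ) (b : ℕ) => a < b) Primrec.nat_lt
  have e2 : Primrec fun q : Sta × Ent => q.2.2.2 := Primrec.snd.comp (Primrec.snd.comp Primrec.snd)
  have e3 : Primrec fun q : Sta × Ent => q.2.2.2.1 := Primrec.fst.comp e2
  have e4 : Primrec fun q : Sta × Ent => q.2.2.2.2 := Primrec.snd.comp e2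
  have e5 : Primrec fun q : Sta × Ent => q.1.1 := Primrec.fst.comp Primrec.fst
  have e6 : Primrec fun q : Sta × Ent => q.1.2 := Primrec.snd.comp Primrec.fst
  have e7 : Primrec fun q : Sta × Ent => q.2.1 := Primrec.fst.comp Primrec.snd
  have e8 : Primrec fun q : Sta × Ent => q.2.2.1 := Primrec.fst.comp (Primrec.snd.comp Primrec.snd)
  exact (Primrec.nat_le.comp e6 e3).and ((h3.comp e4 e3).and
    ((h1.comp e5 e7).not.and (h2.comp e5 e8).not))

variable {T}

theorem computable_bw (hT' : Computable₂ fun i n => (T i)⁻¹ n) :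
    Computable₂ fun L x => bw T L x :=
  computable_foldl (h := fun a j => (T j)⁻¹ a) (hT'.comp Computable.snd Computable.fst)

theorem computable_fw (hT : Computable₂ fun i n => T i n) :
    Computable₂ fun L x => fw T L x :=
  (computable_foldl (h := fun a j => T j a) (hT.comp Computable.snd Computable.fst)).comp
    (Computable.list_reverse.comp Computable.fst) Computable.snd

theorem computable_cand (hT : Computable₂ fun i n => T i n)
    (hT' : Computable₂ fun i n => (T i)⁻¹ n) : Computable₂ (cand T) := by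
  have e0 : Computable fun q : ℕ × ℕ => Denumerable.ofNat (ℕ × List ℕ) q.2 :=
    (Computable.ofNat _).comp Computable.snd
  have e1 : Computable fun q : ℕ × ℕ => (Denumerable.ofNat (ℕ × List ℕ) q.2).1 :=
    Computable.fst.comp e0
  have e2 : Computable fun q : ℕ × ℕ => (Denumerable.ofNat (ℕ × List ℕ) q.2).2 :=
    Computable.snd.comp e0
  have e3 : Computable fun q : ℕ × ℕ => q.1 / 2 :=
    (Primrec.nat_div.comp Primrec.fst (Primrec.const 2)).to_comp
  have e4 : Computable fun q : ℕ × ℕ => decide (q.1 % 2 = 0) :=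
    (PrimrecPred.decide (Primrec.eq.comp (Primrec.nat_mod.comp Primrec.fst (Primrec.const 2))
      (Primrec.const 0))).to_comp
  have h1 : Computable fun q : ℕ × ℕ => ((q.1 / 2,
      bw T (Denumerable.ofNat (ℕ × List ℕ) q.2).2 ((T (Denumerable.ofNat (ℕ × List ℕ) q.2).1)⁻¹
      (q.1 / 2)), (Denumerable.ofNat (ℕ × List ℕ) q.2).1,
      (Denumerable.ofNat (ℕ × List ℕ) q.2).2) : Ent) :=
    e3.pair (((computable_bw hT').comp e2 (hT'.comp e1 e3)).pair (e1.pair e2))
  have h2 : Computable fun q : ℕ × ℕ => ((T (Denumerable.ofNat (ℕ × List ℕ) q.2).1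
      (fw T (Denumerable.ofNat (ℕ × List ℕ) q.2).2 (q.1 / 2)),
      q.1 / 2, (Denumerable.ofNat (ℕ × List ℕ) q.2).1,
      (Denumerable.ofNat (ℕ × List ℕ) q.2).2) : Ent) :=
    (hT.comp e1 ((computable_fw hT).comp e2 e3)).pair (e3.pair (e1.pair e2))
  refine (Computable.cond e4 h1 h2).of_eq fun q => ?_
  unfold cand
  by_cases h : q.1 % 2 = 0
  · simp [h]
  · simp [h]

variable (T)

open Classical in
/-- the test -/
def tst (q : ℕ × Sta) (e : ℕ) : Bool :=
  decide (skp (q.1, q.2.1)) || decide (okk (q.2, cand T q.1 e))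

open Classical in
/-- the update -/
def upd (q : ℕ × Sta) (e : ℕ) : Sta :=
  cond (decide (skp (q.1, q.2.1))) q.2 (cand T q.1 e :: q.2.1, (cand T q.1 e).2.2.1 + 1)

variable {T}

theorem computable_tst (hT : Computable₂ fun i n => T i n)
    (hT' : Computable₂ fun i n => (T i)⁻¹ n) : Computable₂ (tst T) := by
  classical
  have h1 : Computable fun r : (ℕ × Sta) × ℕ => decide (skp (r.1.1, r.1.2.1)) :=
    (primrec_skp.decide.to_comp).comp
      ((Computable.fst.comp Computable.fst).pair
        (Computable.fst.comp (Computable.snd.comp Computable.fst)))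
  have h2 : Computable fun r : (ℕ × Sta) × ℕ => decide (okk (r.1.2, cand T r.1.1 r.2)) :=
    (primrec_okk.decide.to_comp).comp
      ((Computable.snd.comp Computable.fst).pair
        ((computable_cand hT hT').comp (Computable.fst.comp Computable.fst) Computable.snd))
  have h3 : Computable₂ or := Primrec.or.to_comp
  exact h3.comp h1 h2

theorem computable_upd (hT : Computable₂ fun i n => T i n)
    (hT' : Computable₂ fun i n => (T i)⁻¹ n) : Computable₂ (upd T) := by
  classical
  have h1 : Computable fun r : (ℕ × Sta) × ℕ => decide (skp (r.1.1, r.1.2.1)) :=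
    (primrec_skp.decide.to_comp).comp
      ((Computable.fst.comp Computable.fst).pair
        (Computable.fst.comp (Computable.snd.comp Computable.fst)))
  have h2 : Computable fun r : (ℕ × Sta) × ℕ => cand T r.1.1 r.2 :=
    (computable_cand hT hT').comp (Computable.fst.comp Computable.fst) Computable.snd
  refine Computable.cond h1 (Computable.snd.comp Computable.fst) (Computable.pair ?_ ?_)
  · exact Computable.list_cons.comp h2 (Computable.fst.comp (Computable.snd.comp Computable.fst))
  · exact Computable.succ.comp (Computable.fst.comp (Computable.snd.comp (Computable.snd.comp h2)))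

variable (T)

/-- the step, as a partial function -/
def stepP (q : ℕ × Sta) : Part Sta :=
  (Nat.rfind fun e => (Part.some (tst T q e) : Part Bool)).map (upd T q)

variable {T}

theorem partrec_stepP (hT : Computable₂ fun i n => T i n)
    (hT' : Computable₂ fun i n => (T i)⁻¹ n) : Partrec (stepP T) :=
  Partrec.map (Partrec.rfind (computable_tst hT hT').partrec₂) (computable_upd hT hT')

variable (T)

open Classical in
/-- the sequence of states -/
def Sts : ℕ → Sta
  | 0 => ([], 0)
  | t + 1 => if h : ∃ e, tst T (t, Sts t) e = true then upd T (t, Sts t) (Nat.find h) else Sts t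

/-- the invariant -/
structure Inv (s : Sta) : Prop where
  inj1 : ∀ a ∈ s.1, ∀ a' ∈ s.1, a.1 = a'.1 → a = a'
  inj2 : ∀ a ∈ s.1, ∀ a' ∈ s.1, a.2.1 = a'.2.1 → a = a'
  inj3 : ∀ a ∈ s.1, ∀ a' ∈ s.1, a.2.2.1 = a'.2.2.1 → a = a'
  lt : ∀ a ∈ s.1, ∀ j ∈ a.2.2.2, j < a.2.2.1
  bd : ∀ a ∈ s.1, a.2.2.1 < s.2
  act : ∀ a ∈ s.1, a.2.1 = (T a.2.2.1 * wv T a.2.2.2)⁻¹ a.1

variable {T}

theorem cand_even {t e : ℕ} (h : t % 2 = 0) :
    cand T t e = (t / 2, (T (Denumerable.ofNat (ℕ × List ℕ) e).1 *
      wv T (Denumerable.ofNat (ℕ × List ℕ) e).2)⁻¹ (t / 2),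
      (Denumerable.ofNat (ℕ × List ℕ) e).1, (Denumerable.ofNat (ℕ × List ℕ) e).2) := by
  unfold cand
  rw [if_pos h, bw_eq, mul_inv_rev, Equiv.Perm.mul_apply]

theorem cand_odd {t e : ℕ} (h : ¬ t % 2 = 0) :
    cand T t e = ((T (Denumerable.ofNat (ℕ × List ℕ) e).1 *
      wv T (Denumerable.ofNat (ℕ × List ℕ) e).2) (t / 2), t / 2,
      (Denumerable.ofNat (ℕ × List ℕ) e).1, (Denumerable.ofNat (ℕ × List ℕ) e).2) := by
  unfold cand
  rw [if_neg h, fw_eq, Equiv.Perm.mul_apply]

theorem cand_act (t e : ℕ) : (cand T t e).2.1 =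
    (T (cand T t e).2.2.1 * wv T (cand T t e).2.2.2)⁻¹ (cand T t e).1 := by
  by_cases h : t % 2 = 0
  · rw [cand_even h]
  · rw [cand_odd h]
    simp

theorem Inv.orb {s : Sta} (hs : Inv T s) {a : Ent} (ha : a ∈ s.1) : Orb T a.1 a.2.1 := by
  refine ⟨(T a.2.2.1 * wv T a.2.2.2)⁻¹, Subgroup.inv_mem _ (Subgroup.mul_mem _ (mem_Gall T _)
    (wv_mem_Gall T _)), (hs.act a ha).symm⟩

/-- An injection of a finite set into itself is onto. -/
theorem surj_of_inj {A : Set ℕ} (hA : A.Finite) {f : ℕ → ℕ} (hf : Set.MapsTo f A A)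
    (hi : Set.InjOn f A) : ∀ y ∈ A, ∃ x ∈ A, f x = y := by
  intro y hy
  have h1 : f '' A ⊆ A := by
    rintro _ ⟨y, hy, rfl⟩
    exact hf hy
  have h2 : f '' A = A := by
    refine Set.eq_of_subset_of_ncard_le h1 ?_ hA
    rw [hi.ncard_image]
  rw [← h2] at hy
  obtain ⟨x, hx, rfl⟩ := hy
  exact ⟨x, hx, rfl⟩

theorem Inv.exists_test {s : Sta} (hs : Inv T s) (t : ℕ) : ∃ e, tst T (t, s) e = true := by
  classical
  by_cases hsk : skp (t, s.1)
  · refine ⟨0, ?_⟩
    unfold tst
    simp only [Bool.or_eq_true, decide_eq_true_eq]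
    exact Or.inl hsk
  suffices h : ∃ e, okk (s, cand T t e) by
    obtain ⟨e, he⟩ := h
    refine ⟨e, ?_⟩
    unfold tst
    simp only [Bool.or_eq_true, decide_eq_true_eq]
    exact Or.inr he
  unfold skp at hsk
  simp only [not_or, not_and] at hsk
  by_cases ht : t % 2 = 0
  · have hn : ¬ ∃ a ∈ s.1, a.1 = t / 2 := hsk.1 ht
    let R : Finset ℕ := (s.1.map fun a => a.2.1).toFinset
    have hR : ∀ x, x ∈ R ↔ ∃ a ∈ s.1, a.2.1 = x := by
      intro x
      simp only [R, List.mem_toFinset, List.mem_map]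
    have hex : ∃ x, Orb T (t / 2) x ∧ x ∉ R := by
      by_contra hcon
      push Not at hcon
      let A : Set ℕ := {x | Orb T (t / 2) x}
      have hA : A.Finite := (Finset.finite_toSet R).subset fun x hx => hcon x hx
      have h1 : ∀ x, x ∈ A → ∃ a ∈ s.1, a.2.1 = x := fun x hx => (hR x).1 (hcon x hx)
      let f : ℕ → ℕ := fun x => if hx : x ∈ A then (h1 x hx).choose.1 else 0
      have hf : ∀ x (hx : x ∈ A), ∃ a ∈ s.1, a.2.1 = x ∧ f x = a.1 := by
        intro x hx
        refine ⟨(h1 x hx).choose, (h1 x hx).choose_spec.1, (h1 x hx).choose_spec.2, ?_⟩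
        exact dif_pos hx
      obtain ⟨x, hx, hfx⟩ := surj_of_inj hA (f := f) (by
        intro x hx
        obtain ⟨a, ha, ha2, ha3⟩ := hf x hx
        have := hs.orb ha
        rw [ha2, ← ha3] at this
        exact Orb.trans T hx (Orb.symm T this)) (by
        intro x hx x' hx' hxx
        obtain ⟨a, ha, ha2, ha3⟩ := hf x hx
        obtain ⟨a', ha', ha2', ha3'⟩ := hf x' hx'
        have := hs.inj1 a ha a' ha' (by rw [← ha3, ← ha3', hxx])
        rw [← ha2, ← ha2', this]) (t / 2) (Orb.refl T _)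
      obtain ⟨a, ha, ha2, ha3⟩ := hf x hx
      exact hn ⟨a, ha, by rw [← ha3, hfx]⟩
    obtain ⟨i, L, h1, h2, h3⟩ := dom_step T s.2 (t / 2) R hex
    refine ⟨Encodable.encode (i, L), ?_⟩
    rw [cand_even ht, Denumerable.ofNat_encode]
    refine ⟨h1, h2, hn, ?_⟩
    intro h
    exact h3 ((hR _).2 h)
  · have hn : ¬ ∃ a ∈ s.1, a.2.1 = t / 2 := hsk.2 ht
    let D : Finset ℕ := (s.1.map fun a => a.1).toFinset
    have hD : ∀ x, x ∈ D ↔ ∃ a ∈ s.1, a.1 = x := by
      intro x
      simp only [D, List.mem_toFinset, List.mem_map]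
    have hex : ∃ x, Orb T (t / 2) x ∧ x ∉ D := by
      by_contra hcon
      push Not at hcon
      let A : Set ℕ := {x | Orb T (t / 2) x}
      have hA : A.Finite := (Finset.finite_toSet D).subset fun x hx => hcon x hx
      have h1 : ∀ x, x ∈ A → ∃ a ∈ s.1, a.1 = x := fun x hx => (hD x).1 (hcon x hx)
      let f : ℕ → ℕ := fun x => if hx : x ∈ A then (h1 x hx).choose.2.1 else 0
      have hf : ∀ x (hx : x ∈ A), ∃ a ∈ s.1, a.1 = x ∧ f x = a.2.1 := by
        intro x hx
        refine ⟨(h1 x hx).choose, (h1 x hx).choose_spec.1, (h1 x hx).choose_spec.2, ?_⟩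
        exact dif_pos hx
      obtain ⟨x, hx, hfx⟩ := surj_of_inj hA (f := f) (by
        intro x hx
        obtain ⟨a, ha, ha2, ha3⟩ := hf x hx
        have := hs.orb ha
        rw [ha2, ← ha3] at this
        exact Orb.trans T hx this) (by
        intro x hx x' hx' hxx
        obtain ⟨a, ha, ha2, ha3⟩ := hf x hx
        obtain ⟨a', ha', ha2', ha3'⟩ := hf x' hx'
        have := hs.inj2 a ha a' ha' (by rw [← ha3, ← ha3', hxx])
        rw [← ha2, ← ha2', this]) (t / 2) (Orb.refl T _)
      obtain ⟨a, ha, ha2, ha3⟩ := hf x hx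
      exact hn ⟨a, ha, by rw [← ha3, hfx]⟩
    obtain ⟨i, L, h1, h2, h3⟩ := ran_step T s.2 (t / 2) D hex
    refine ⟨Encodable.encode (i, L), ?_⟩
    rw [cand_odd ht, Denumerable.ofNat_encode]
    refine ⟨h1, h2, ?_, hn⟩
    intro h
    exact h3 ((hD _).2 h)

theorem Inv.upd {s : Sta} (hs : Inv T s) {t e : ℕ} (h : tst T (t, s) e = true) :
    Inv T (upd T (t, s) e) := by
  classical
  unfold RecIso72.upd
  by_cases hsk : skp (t, s.1)
  · simp only [hsk, decide_true, cond_true]
    exact hs
  · have hok : okk (s, cand T t e) := by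
      unfold tst at h
      simp only [Bool.or_eq_true, decide_eq_true_eq] at h
      rcases h with h | h
      · exact absurd h hsk
      · exact h
    simp only [hsk, decide_false, cond_false]
    obtain ⟨h1, h2, h3, h4⟩ := hok
    simp only at h1 h2 h3 h4
    have hlt : ∀ a ∈ s.1, a.2.2.1 < (cand T t e).2.2.1 := fun a ha =>
      lt_of_lt_of_le (hs.bd a ha) h1
    constructor
    · intro a ha a' ha' he
      rcases List.mem_cons.1 ha with rfl | ha
      · rcases List.mem_cons.1 ha' with rfl | ha'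
        · rfl
        · exact absurd ⟨a', ha', he.symm⟩ h3
      · rcases List.mem_cons.1 ha' with rfl | ha'
        · exact absurd ⟨a, ha, he⟩ h3
        · exact hs.inj1 a ha a' ha' he
    · intro a ha a' ha' he
      rcases List.mem_cons.1 ha with rfl | ha
      · rcases List.mem_cons.1 ha' with rfl | ha'
        · rfl
        · exact absurd ⟨a', ha', he.symm⟩ h4
      · rcases List.mem_cons.1 ha' with rfl | ha'
        · exact absurd ⟨a, ha, he⟩ h4
        · exact hs.inj2 a ha a' ha' he
    · intro a ha a' ha' he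
      rcases List.mem_cons.1 ha with rfl | ha
      · rcases List.mem_cons.1 ha' with rfl | ha'
        · rfl
        · exact absurd he (hlt a' ha').ne'
      · rcases List.mem_cons.1 ha' with rfl | ha'
        · exact absurd he (hlt a ha).ne
        · exact hs.inj3 a ha a' ha' he
    · intro a ha
      rcases List.mem_cons.1 ha with rfl | ha
      · exact h2
      · exact hs.lt a ha
    · intro a ha
      rcases List.mem_cons.1 ha with rfl | ha
      · exact Nat.lt_succ_self _
      · exact (hlt a ha).trans (Nat.lt_succ_self _)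
    · intro a ha
      rcases List.mem_cons.1 ha with rfl | ha
      · exact cand_act t e
      · exact hs.act a ha

theorem inv_Sts (t : ℕ) : Inv T (Sts T t) := by
  classical
  induction t with
  | zero =>
    unfold Sts
    constructor <;> simp
  | succ t ih =>
    unfold Sts
    by_cases h : ∃ e, tst T (t, Sts T t) e = true
    · rw [dif_pos h]
      exact ih.upd (Nat.find_spec h)
    · rw [dif_neg h]
      exact ih

theorem Sts_rec (t : ℕ) :
    (Nat.rec (motive := fun _ => Part Sta) (Part.some ([], 0))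
      (fun y IH => IH.bind fun i => stepP T (y, i)) t) = Part.some (Sts T t) := by
  classical
  induction t with
  | zero => rfl
  | succ t ih =>
    simp only
    rw [ih, Part.bind_some]
    have h : ∃ e, tst T (t, Sts T t) e = true := (inv_Sts t).exists_test t
    have h1 : Sts T (t + 1) = upd T (t, Sts T t) (Nat.find h) := by
      conv_lhs => unfold Sts
      rw [dif_pos h]
    rw [h1]
    unfold stepP
    have h2 : Nat.rfind (fun e => (Part.some (tst T (t, Sts T t) e) : Part Bool)) =
        Part.some (Nat.find h) :=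
      rfind_eq (Nat.find_spec h) fun m hm => by
        have := Nat.find_min h hm
        rwa [Bool.not_eq_true] at this
    rw [h2, Part.map_some]

theorem computable_Sts (hT : Computable₂ fun i n => T i n)
    (hT' : Computable₂ fun i n => (T i)⁻¹ n) : Computable (Sts T) := by
  have h1 : Partrec fun a : ℕ => (Nat.rec (motive := fun _ => Part Sta) (Part.some ([], 0))
      (fun y IH => IH.bind fun i => stepP T (y, i)) a) :=
    Partrec.nat_rec (f := fun a : ℕ => a) (g := fun _ => (Part.some ([], 0) : Part Sta))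
      (h := fun _ p => stepP T p) Computable.id (Computable.const _)
      ((partrec_stepP hT hT').comp Computable.snd)
  exact h1.of_eq fun a => Sts_rec a

theorem Sts_mono (t : ℕ) {a : Ent} (ha : a ∈ (Sts T t).1) : a ∈ (Sts T (t + 1)).1 := by
  classical
  conv => unfold Sts
  by_cases h : ∃ e, tst T (t, Sts T t) e = true
  · rw [dif_pos h]
    unfold upd
    by_cases hsk : skp (t, (Sts T t).1)
    · simp only [hsk, decide_true, cond_true]
      exact ha
    · simp only [hsk, decide_false, cond_false]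
      exact List.mem_cons_of_mem _ ha
  · rw [dif_neg h]
    exact ha

theorem Sts_mono' {t t' : ℕ} (h : t ≤ t') {a : Ent} (ha : a ∈ (Sts T t).1) :
    a ∈ (Sts T t').1 := by
  induction h with
  | refl => exact ha
  | step _ ih => exact Sts_mono _ ih

theorem Sts_done (t : ℕ) : skp (t, (Sts T (t + 1)).1) := by
  classical
  have h : ∃ e, tst T (t, Sts T t) e = true := (inv_Sts t).exists_test t
  have h1 : Sts T (t + 1) = upd T (t, Sts T t) (Nat.find h) := by
    conv_lhs => unfold Sts
    rw [dif_pos h]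
  rw [h1]
  unfold upd
  by_cases hsk : skp (t, (Sts T t).1)
  · simp only [hsk, decide_true, cond_true]
  · simp only [hsk, decide_false, cond_false]
    by_cases ht : t % 2 = 0
    · left
      refine ⟨ht, _, List.mem_cons_self, ?_⟩
      rw [cand_even ht]
    · right
      refine ⟨ht, _, List.mem_cons_self, ?_⟩
      rw [cand_odd ht]

theorem exists_ent1 (n : ℕ) : ∃ a ∈ (Sts T (2 * n + 1)).1, a.1 = n := by
  rcases Sts_done (T := T) (2 * n) with ⟨_, a, ha, h⟩ | ⟨h, _⟩
  · refine ⟨a, ha, ?_⟩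
    simp only at h
    omega
  · exact absurd (by simp : 2 * n % 2 = 0) h

theorem exists_ent2 (m : ℕ) : ∃ a ∈ (Sts T (2 * m + 1 + 1)).1, a.2.1 = m := by
  rcases Sts_done (T := T) (2 * m + 1) with ⟨h, _⟩ | ⟨_, a, ha, h⟩
  · simp only at h
    omega
  · refine ⟨a, ha, ?_⟩
    simp only at h
    omega

/-- The greedy permutation. -/
theorem greedy (T : ℕ → Equiv.Perm ℕ) (hT : Computable₂ fun i n => T i n)
    (hT' : Computable₂ fun i n => (T i)⁻¹ n) :
    ∃ (ix : ℕ → ℕ) (Lx : ℕ → List ℕ) (π : Equiv.Perm ℕ), Function.Injective ix ∧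
      (∀ n, ∀ j ∈ Lx n, j < ix n) ∧ Computable π ∧
      ∀ n, π n = (T (ix n) * wv T (Lx n))⁻¹ n := by
  classical
  choose a ha han using exists_ent1 (T := T)
  have key1 : ∀ n n', a n = a n' → n = n' := by
    intro n n' h
    rw [← han n, ← han n', h]
  have hcommon : ∀ n n', a n ∈ (Sts T (max (2 * n + 1) (2 * n' + 1))).1 ∧
      a n' ∈ (Sts T (max (2 * n + 1) (2 * n' + 1))).1 := fun n n' =>
    ⟨Sts_mono' (le_max_left _ _) (ha n), Sts_mono' (le_max_right _ _) (ha n')⟩
  let f : ℕ → ℕ := fun n => (a n).2.1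
  have hinj : Function.Injective f := by
    intro n n' h
    obtain ⟨h1, h2⟩ := hcommon n n'
    exact key1 n n' ((inv_Sts _).inj2 _ h1 _ h2 h)
  have hsurj : Function.Surjective f := by
    intro m
    obtain ⟨b, hb, hbm⟩ := exists_ent2 (T := T) m
    refine ⟨b.1, ?_⟩
    have h1 : a b.1 ∈ (Sts T (max (2 * b.1 + 1) (2 * m + 1 + 1))).1 :=
      Sts_mono' (le_max_left _ _) (ha _)
    have h2 : b ∈ (Sts T (max (2 * b.1 + 1) (2 * m + 1 + 1))).1 := Sts_mono' (le_max_right _ _) hb
    have h3 := (inv_Sts _).inj1 _ h1 _ h2 (han _)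
    change (a b.1).2.1 = m
    rw [h3, hbm]
  refine ⟨fun n => (a n).2.2.1, fun n => (a n).2.2.2, Equiv.ofBijective f ⟨hinj, hsurj⟩,
    ?_, ?_, ?_, ?_⟩
  · intro n n' h
    obtain ⟨h1, h2⟩ := hcommon n n'
    exact key1 n n' ((inv_Sts _).inj3 _ h1 _ h2 h)
  · intro n
    exact (inv_Sts _).lt _ (ha n)
  · change Computable f
    have hrel : PrimrecRel fun (L : List Ent) (b : ℕ × ℕ) => ∃ a ∈ L, a.1 = b.1 ∧ a.2.1 = b.2 :=
      PrimrecRel.exists_mem_list (R := fun (a : Ent) (b : ℕ × ℕ) => a.1 = b.1 ∧ a.2.1 = b.2)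
        ((Primrec.eq.comp (Primrec.fst.comp Primrec.fst) (Primrec.fst.comp Primrec.snd)).and
          (Primrec.eq.comp (Primrec.fst.comp (Primrec.snd.comp Primrec.fst))
            (Primrec.snd.comp Primrec.snd)))
    have hrel' : Computable fun q : List Ent × (ℕ × ℕ) =>
        decide (∃ a ∈ q.1, a.1 = q.2.1 ∧ a.2.1 = q.2.2) := hrel.decide.to_comp
    have hst : Computable fun q : ℕ × ℕ => (Sts T (2 * q.1 + 1)).1 :=
      Computable.fst.comp ((computable_Sts hT hT').comp
        (Primrec.succ.comp (Primrec.nat_mul.comp (Primrec.const 2) Primrec.fst)).to_comp)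
    have hp : Computable₂ fun n m : ℕ =>
        decide (∃ a ∈ (Sts T (2 * n + 1)).1, a.1 = n ∧ a.2.1 = m) :=
      (hrel'.comp (hst.pair Computable.id)).of_eq fun q => by
        rw [decide_eq_decide]
        rfl
    refine computable_find hp (fun n => ?_) (fun n m hm => ?_)
    · simp only [decide_eq_true_eq]
      exact ⟨a n, ha n, han n, rfl⟩
    · simp only [decide_eq_false_iff_not]
      rintro ⟨b, hb, hb1, hb2⟩
      have := (inv_Sts _).inj1 _ hb _ (ha n) (by rw [hb1, han n])
      rw [this] at hb2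
      change f n = m at hb2
      omega
  · intro n
    change (a n).2.1 = _
    rw [(inv_Sts _).act _ (ha n), han n]

end Pool.Agent.RecIso72
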