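import Mathlib

set_option autoImplicit false

/-!
# Solving the triangular system of word equations
-/

noncomputable section

namespace Pool.Agent.RecIso72

variable {G : Type} [Group G]

open Classical in
/-- the solution -/
def theta (ix : ℕ → ℕ) (Lx : ℕ → List ℕ) (lam : ℕ → G) (j : ℕ) : G :=
  if h : ∃ n, ix n = j then
    lam h.choose * (((Lx h.choose).map fun k => if _ : k < j then theta ix Lx lam k else 1).prod)⁻¹
  else 1
termination_by j

theorem exists_theta (ix : ℕ → ℕ) (Lx : ℕ → List ℕ) (hinj : Function.Injective ix)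
    (hlt : ∀ n, ∀ j ∈ Lx n, j < ix n) (lam : ℕ → G) :
    ∃ θ : ℕ → G, (∀ n, θ (ix n) * ((Lx n).map θ).prod = lam n) ∧
      ∀ K : Subgroup G, (∀ n, lam n ∈ K) → ∀ j, θ j ∈ K := by
  classical
  refine ⟨theta ix Lx lam, fun n => ?_, fun K hK j => ?_⟩
  · have h : ∃ n', ix n' = ix n := ⟨n, rfl⟩
    have hn : h.choose = n := hinj h.choose_spec
    have h1 : theta ix Lx lam (ix n) = lam n * (((Lx n).map (theta ix Lx lam)).prod)⁻¹ := by
      rw [theta, dif_pos h, hn]
      congr 3
      refine List.map_congr_left fun k hk => ?_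
      rw [dif_pos (hlt n k hk)]
    rw [h1, inv_mul_cancel_right]
  · induction j using Nat.strong_induction_on with
    | _ j ih =>
      rw [theta]
      by_cases h : ∃ n, ix n = j
      · rw [dif_pos h]
        refine K.mul_mem (hK _) (K.inv_mem (K.list_prod_mem ?_))
        intro x hx
        obtain ⟨k, _, rfl⟩ := List.mem_map.1 hx
        by_cases hkj : k < j
        · rw [dif_pos hkj]
          exact ih k hkj
        · rw [dif_neg hkj]
          exact K.one_mem
      · rw [dif_neg h]
        exact K.one_mem

end Pool.Agent.RecIso72
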