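import Pool.Agent.RecIso72.Space
import Pool.Agent.RecIso72.GreedyB
import Pool.Agent.RecIso72.Theta

set_option autoImplicit false

/-!
# Recursive isomorphism of subsets of `ℕ` is not uniformly universal
-/

noncomputable section

namespace Pool.Agent.RecIso72

theorem permAct_inv_eq {g : Equiv.Perm ℕ} {x y : ℕ → Bool} (h : permAct g x = y) :
    permAct g⁻¹ y = x := by
  rw [← h, ← permAct_mul, inv_mul_cancel, permAct_one]

/-- the inverse of a recursive permutation is recursive -/
theorem computable_inv {π : Equiv.Perm ℕ} (h : Computable π) : Computable (π⁻¹ : Equiv.Perm ℕ) := by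
  have hd : Computable fun q : ℕ × ℕ => decide (q.1 = q.2) :=
    (PrimrecPred.decide (Primrec.eq.comp Primrec.fst Primrec.snd)).to_comp
  have hp : Computable₂ fun n m : ℕ => decide (π m = n) :=
    hd.comp ((h.comp Computable.snd).pair Computable.fst)
  refine computable_find hp (fun n => ?_) (fun n m hm => ?_)
  · simp
  · simp only [decide_eq_false_iff_not]
    rintro rfl
    simp at hm

theorem perm_pow_apply (π : Equiv.Perm ℕ) (i n : ℕ) :
    (π ^ i) n = Nat.rec (motive := fun _ => ℕ) n (fun _ IH => π IH) i := by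
  induction i with
  | zero => rfl
  | succ i ih =>
    rw [pow_succ', Equiv.Perm.mul_apply, ih]

theorem computable_pow {π : Equiv.Perm ℕ} (h : Computable π) :
    Computable₂ fun i n : ℕ => (π ^ i) n := by
  have h1 : Computable fun q : ℕ × ℕ => Nat.rec (motive := fun _ => ℕ) q.2 (fun _ IH => π IH) q.1 :=
    Computable.nat_rec (f := fun q : ℕ × ℕ => q.1) (g := fun q => q.2) (h := fun _ p => π p.2)
      Computable.fst Computable.snd (h.comp (Computable.snd.comp Computable.snd))
  exact h1.of_eq fun q => (perm_pow_apply π q.1 q.2).symm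

/-- the conjugates -/
def Tf (hS hX : Equiv.Perm ℕ) (i : ℕ) : Equiv.Perm ℕ := hS ^ i * hX * (hS ^ i)⁻¹

theorem computable_Tf {hS hX : Equiv.Perm ℕ} (h1 : Computable hS) (h2 : Computable hX) :
    Computable₂ fun i n => Tf hS hX i n := by
  have h3 : Computable₂ fun i n : ℕ => (hS ^ i)⁻¹ n :=
    (computable_pow (computable_inv h1)).of_eq fun q => by
      change (hS⁻¹ ^ q.1) q.2 = (hS ^ q.1)⁻¹ q.2
      rw [inv_pow]
  have h4 : Computable fun q : ℕ × ℕ => hX ((hS ^ q.1)⁻¹ q.2) := h2.comp h3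
  exact ((computable_pow h1).comp Computable.fst h4 : Computable fun q : ℕ × ℕ =>
    (hS ^ q.1) (hX ((hS ^ q.1)⁻¹ q.2)))

theorem computable_Tf_inv {hS hX : Equiv.Perm ℕ} (h1 : Computable hS) (h2 : Computable hX) :
    Computable₂ fun i n => (Tf hS hX i)⁻¹ n :=
  (computable_Tf h1 (computable_inv h2)).of_eq fun q => by
    have h : Tf hS hX⁻¹ q.1 = (Tf hS hX q.1)⁻¹ := by
      unfold Tf
      group
    change Tf hS hX⁻¹ q.1 q.2 = (Tf hS hX q.1)⁻¹ q.2
    rw [h]

theorem bool_cycle (b : ZMod 3 → Bool) (h : ∀ k, b (1 + k) ≠ b k) : False := by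
  have h0 := h 0
  have h1 := h 1
  have h2 := h 2
  have e1 : (1 + 0 : ZMod 3) = 1 := by decide
  have e2 : (1 + 1 : ZMod 3) = 2 := by decide
  have e3 : (1 + 2 : ZMod 3) = 0 := by decide
  rw [e1] at h0
  rw [e2] at h1
  rw [e3] at h2
  revert h0 h1 h2
  cases b 0 <;> cases b 1 <;> cases b 2 <;> simp

theorem SE_pow (i : ℕ) (θ : ℕ → Lam) (y : Cl) (k : ℤ) : (SE ^ i) (θ, y, k) = (θ, y, k + i) := by
  induction i with
  | zero => simp
  | succ i ih =>
    rw [pow_succ', Equiv.Perm.mul_apply, ih]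
    change (θ, y, k + i + 1) = _
    push_cast
    rw [add_assoc]

/-- The key contradiction. -/
theorem no_map (f : Zs → ℕ → Bool) (hf : Measurable f) (hS hX : Equiv.Perm ℕ)
    (cS : Computable hS) (cX : Computable hX) (eS : ∀ z, f (SE z) = permAct hS (f z))
    (eX : ∀ z, f (XE z) = permAct hX (f z))
    (hred : ∀ z z', (∃ π : Equiv.Perm ℕ, Computable π ∧ Computable (π⁻¹ : Equiv.Perm ℕ) ∧
      permAct π (f z) = f z') → ∃ L, wp L z = z') : False := by
  classical
  -- equivariance on the fibre over zero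
  have ePow : ∀ (i : ℕ) z, f ((SE ^ i) z) = permAct (hS ^ i) (f z) := by
    intro i
    induction i with
    | zero => intro z; rfl
    | succ i ih =>
      intro z
      rw [pow_succ', Equiv.Perm.mul_apply, eS, ih, pow_succ', permAct_mul]
  have eT : ∀ (θ : ℕ → Lam) (y : Cl) (i : ℕ),
      permAct (Tf hS hX i) (f (θ, y, 0)) = f (θ, act (θ i) y, 0) := by
    intro θ y i
    have h1 := ePow i (θ, y, -(i : ℤ))
    have h2 := ePow i (θ, act (θ i) y, -(i : ℤ))
    rw [SE_pow] at h1 h2
    rw [neg_add_cancel] at h1 h2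
    have h3 := eX (θ, y, -(i : ℤ))
    have h4 : XE (θ, y, -(i : ℤ)) = (θ, act (θ i) y, -(i : ℤ)) := by
      change (θ, act (θ ((-(i : ℤ)).natAbs)) y, -(i : ℤ)) = _
      rw [Int.natAbs_neg, Int.natAbs_natCast]
    rw [h4] at h3
    rw [h2, h3, h1]
    unfold Tf
    rw [permAct_mul, permAct_mul, ← permAct_mul (hS ^ i)⁻¹, inv_mul_cancel, permAct_one]
  set T := Tf hS hX with hT
  have eW : ∀ (θ : ℕ → Lam) (L : List ℕ) (y : Cl),
      permAct (wv T L) (f (θ, y, 0)) = f (θ, act ((L.map θ).prod) y, 0) := by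
    intro θ L
    induction L with
    | nil =>
      intro y
      rw [wv_nil, permAct_one]
      simp [act_one]
    | cons j L ih =>
      intro y
      rw [wv_cons, permAct_mul, ih, eT, ← act_mul, List.map_cons, List.prod_cons]
  obtain ⟨ix, Lx, π, hinj, hlt, hπ, hπe⟩ := greedy T (computable_Tf cS cX)
    (computable_Tf_inv cS cX)
  obtain ⟨θ, hθ, hθK⟩ := exists_theta ix Lx hinj hlt (fun n => s 0 1 * (s n 1)⁻¹)
  have hker : ∀ j, θ j ∈ chi.ker := by
    apply hθK
    intro n
    rw [MonoidHom.mem_ker, map_mul, map_inv, chi_s, chi_s, mul_inv_cancel]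
  -- the main identity
  have hmain : ∀ (y : Cl) (n : ℕ), f (θ, act (s 0 1) y, 0) n = f (θ, act (s n 1) y, 0) (π n) := by
    intro y n
    have h1 : f (θ, act (s 0 1) y, 0) =
        permAct (T (ix n) * wv T (Lx n)) (f (θ, act (s n 1) y, 0)) := by
      rw [permAct_mul, eW, eT, ← act_mul, ← act_mul, hθ n, inv_mul_cancel_right]
    rw [h1, hπe n]
    rfl
  let D : ℕ → Set Cl := fun n => {y | f (θ, act (s n 1) y, 0) (π n) ≠ f (θ, y, 0) (π n)}
  have hfm : ∀ (g : Lam) (m : ℕ), Measurable fun y : Cl => f (θ, act g y, 0) m := by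
    intro g m
    have h1 : Measurable fun y : Cl => ((θ, act g y, 0) : Zs) :=
      measurable_const.prodMk ((measurable_act g).prodMk measurable_const)
    exact (measurable_pi_apply m).comp (hf.comp h1)
  have hD : ∀ n, MeasurableSet (D n) := by
    intro n
    have h1 := hfm (s n 1) (π n)
    have h2 := hfm 1 (π n)
    simp only [act_one] at h2
    exact (measurableSet_eq_fun h1 h2).compl
  have hout : ∀ y : Cl, y ∈ Ufr → y ∉ Wcyc → ∃ n, y ∈ D n := by
    intro y hy hW
    by_contra hno
    push Not at hno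
    have h1 : ∀ n, f (θ, act (s n 1) y, 0) (π n) = f (θ, y, 0) (π n) := by
      intro n
      by_contra hne
      exact hno n hne
    have h2 : permAct π⁻¹ (f (θ, y, 0)) = f (θ, act (s 0 1) y, 0) := by
      funext n
      rw [hmain y n, h1 n]
      unfold permAct
      rw [inv_inv]
    obtain ⟨L, hL⟩ := hred (θ, y, 0) (θ, act (s 0 1) y, 0)
      ⟨π⁻¹, computable_inv hπ, by rw [inv_inv]; exact hπ, h2⟩
    obtain ⟨_, γ, hγ, h3⟩ := wp_form (K := chi.ker) L (θ, y, 0) hker
    rw [hL] at h3
    simp only at h3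
    apply hW
    refine mem_Wcyc hy (g := (s 0 1)⁻¹ * γ) ?_ ?_
    · intro h4
      have h5 : γ = s 0 1 := (inv_mul_eq_one.1 h4).symm
      rw [h5, MonoidHom.mem_ker, chi_s] at hγ
      revert hγ
      decide
    · rw [act_mul, ← h3, act_inv_act]
  let c : Cl → ℕ := fun y => if y ∈ Wcyc then cyc y else sInf {n | y ∈ D n}
  have hc : Measurable c := Measurable.ite measurableSet_Wcyc measurable_cyc (measurable_sInf hD)
  obtain ⟨y, hy, n, hn⟩ := thmM c hc
  have hy' : y ∈ Ufr := hy
  by_cases hW : y ∈ Wcyc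
  · apply cyc_spec hW n
    intro k
    have h := hn k
    change (if act (s n k) y ∈ Wcyc then _ else _) = n at h
    rwa [if_pos (Wcyc_act.2 hW)] at h
  · apply bool_cycle (fun k => f (θ, act (s n k) y, 0) (π n))
    intro k
    have h := hn k
    have hWk : act (s n k) y ∉ Wcyc := fun h' => hW (Wcyc_act.1 h')
    change (if act (s n k) y ∈ Wcyc then _ else _) = n at h
    rw [if_neg hWk] at h
    have h1 := Nat.sInf_mem (s := {m | act (s n k) y ∈ D m}) (hout _ (Ufr_act hy') hWk)
    rw [h] at h1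
    have h2 : f (θ, act (s n 1) (act (s n k) y), 0) (π n) ≠ f (θ, act (s n k) y, 0) (π n) := h1
    rw [← act_mul, ← s_add] at h2
    exact h2

theorem not_uniformlyUniversal (g : ℕ → Equiv.Perm ℕ)
    (hg : Set.range g = {π : Equiv.Perm ℕ | Computable π}) :
    ¬ (recFamily g hg).UniformlyUniversal := by
  intro hU
  obtain ⟨f, ⟨hf, hred⟩, u, hu⟩ := hU Zs psi
  have hcomp : ∀ n, Computable (g n) := fun n => by
    have : g n ∈ {π : Equiv.Perm ℕ | Computable π} := by rw [← hg]; exact ⟨n, rfl⟩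
    exact this
  obtain ⟨a, ha⟩ := en_surj [(false, false)]
  obtain ⟨a', ha'⟩ := en_surj [(false, true)]
  obtain ⟨b, hb⟩ := en_surj [(true, false)]
  obtain ⟨b', hb'⟩ := en_surj [(true, true)]
  have w1 : wp [(false, false)] = SE := by rw [wp_cons, wp_nil, mul_one]; rfl
  have w2 : wp [(false, true)] = SE⁻¹ := by rw [wp_cons, wp_nil, mul_one]; rfl
  have w3 : wp [(true, false)] = XE := by rw [wp_cons, wp_nil, mul_one]; rfl
  have w4 : wp [(true, true)] = XE⁻¹ := by rw [wp_cons, wp_nil, mul_one]; rfl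
  refine no_map f hf (g (u (a, a')).1) (g (u (b, b')).1) (hcomp _) (hcomp _) ?_ ?_ ?_
  · intro z
    have h : psi.Via a a' z (SE z) := by
      refine ⟨⟨Set.mem_univ _, ?_⟩, Set.mem_univ _, ?_⟩
      · change wp (en a) z = _
        rw [ha, w1]
      · change wp (en a') (SE z) = _
        rw [ha', w2]
        simp
    exact ((hu _ _ _ _ h).1.2).symm
  · intro z
    have h : psi.Via b b' z (XE z) := by
      refine ⟨⟨Set.mem_univ _, ?_⟩, Set.mem_univ _, ?_⟩
      · change wp (en b) z = _
        rw [hb, w3]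
      · change wp (en b') (XE z) = _
        rw [hb', w4]
        simp
    exact ((hu _ _ _ _ h).1.2).symm
  · rintro z z' ⟨π, h1, h2, h3⟩
    have e1 : π ∈ Set.range g := by rw [hg]; exact h1
    have e2 : π⁻¹ ∈ Set.range g := by rw [hg]; exact h2
    obtain ⟨m, hm⟩ := e1
    obtain ⟨m', hm'⟩ := e2
    have h4 : (recFamily g hg).Rel (f z) (f z') := by
      refine ⟨m, m', ⟨Set.mem_univ _, ?_⟩, Set.mem_univ _, ?_⟩
      · change permAct (g m) (f z) = f z'
        rw [hm, h3]
      · change permAct (g m') (f z') = f z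
        rw [hm', permAct_inv_eq h3]
    obtain ⟨k, k', ⟨_, h5⟩, _⟩ := (hred z z').2 h4
    exact ⟨en k, h5⟩

/-- The recursive permutations can be enumerated. -/
theorem exists_enumeration :
    ∃ g : ℕ → Equiv.Perm ℕ, Set.range g = {π : Equiv.Perm ℕ | Computable π} := by
  have hcount : {π : Equiv.Perm ℕ | Computable π}.Countable := by
    have h1 : ∀ π : {π : Equiv.Perm ℕ | Computable π}, ∃ c : Nat.Partrec.Code,
        Nat.Partrec.Code.eval c = fun n => Part.some ((π : Equiv.Perm ℕ) n) := by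
      rintro ⟨π, hπ⟩
      have h2 : Partrec (fun n => (Part.some (π n) : Part ℕ)) := Computable.partrec hπ
      exact Nat.Partrec.Code.exists_code.1 (Partrec.nat_iff.1 h2)
    choose c hc using h1
    have h3 : Function.Injective c := by
      intro π π' h
      apply Subtype.ext
      ext n
      have h4 := hc π
      rw [h, hc π'] at h4
      have h5 := congrFun h4 n
      exact (Part.some_inj.1 h5).symm
    exact h3.countable
  have hne : {π : Equiv.Perm ℕ | Computable π}.Nonempty := ⟨1, Computable.id⟩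
  obtain ⟨g, hg⟩ := hcount.exists_eq_range hne
  exact ⟨g, hg.symm⟩

end Pool.Agent.RecIso72
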