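import Pool.Agent.RecIso72.Defs
import Pool.Agent.RecIso72.CycB

set_option autoImplicit false

/-!
# The space and the action of the free group on two generators
-/

noncomputable section

namespace Pool.Agent.RecIso72

instance : MeasurableSpace Lam := ⊤

instance : DiscreteMeasurableSpace Lam := ⟨fun _ => trivial⟩

/-- the space -/
abbrev Zs : Type := (ℕ → Lam) × Cl × ℤ

theorem zs_standard : StandardBorelSpace Zs := inferInstance

/-- the shift -/
def SE : Equiv.Perm Zs where
  toFun z := (z.1, z.2.1, z.2.2 + 1)
  invFun z := (z.1, z.2.1, z.2.2 - 1)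
  left_inv z := by simp
  right_inv z := by simp

/-- the second generator -/
def XE : Equiv.Perm Zs where
  toFun z := (z.1, act (z.1 z.2.2.natAbs) z.2.1, z.2.2)
  invFun z := (z.1, act (z.1 z.2.2.natAbs)⁻¹ z.2.1, z.2.2)
  left_inv z := by simp [act_inv_act]
  right_inv z := by simp [act_act_inv]

/-- the generators and their inverses -/
def gens : Bool × Bool → Equiv.Perm Zs
  | (false, false) => SE
  | (false, true) => SE⁻¹
  | (true, false) => XE
  | (true, true) => XE⁻¹

theorem measurable_actF {α : Type} [MeasurableSpace α] {g : α → Lam} {y : α → Cl}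
    (hg : Measurable g) (hy : Measurable y) : Measurable fun a => act (g a) (y a) := by
  have h1 : Measurable (fun q : Lam × Cl => act q.1 q.2) :=
    measurable_from_prod_countable_right fun g => measurable_act g
  exact h1.comp (hg.prodMk hy)

theorem measurable_evalF {α : Type} [MeasurableSpace α] {θ : α → ℕ → Lam} {k : α → ℕ}
    (hθ : Measurable θ) (hk : Measurable k) : Measurable fun a => θ a (k a) := by
  have h1 : Measurable (fun q : ℕ × (ℕ → Lam) => q.2 q.1) :=
    measurable_from_prod_countable_right fun n => measurable_pi_apply n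
  exact h1.comp (hk.prodMk hθ)

theorem measurable_natAbs' : Measurable (fun z : Zs => z.2.2.natAbs) :=
  (measurable_of_countable Int.natAbs).comp (measurable_snd.comp measurable_snd)

theorem measurable_gens (a : Bool × Bool) : Measurable (gens a) := by
  have h1 : Measurable (fun z : Zs => z.2.1) := measurable_fst.comp measurable_snd
  have h2 : Measurable (fun z : Zs => z.2.2) := measurable_snd.comp measurable_snd
  have h3 : Measurable (fun z : Zs => z.1 z.2.2.natAbs) :=
    measurable_evalF measurable_fst measurable_natAbs'
  have h4 : Measurable (fun z : Zs => (z.1 z.2.2.natAbs)⁻¹) :=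
    (measurable_of_countable (fun g : Lam => g⁻¹)).comp h3
  rcases a with ⟨_ | _, _ | _⟩
  · exact measurable_fst.prodMk (h1.prodMk ((measurable_of_countable (fun k : ℤ => k + 1)).comp h2))
  · exact measurable_fst.prodMk (h1.prodMk ((measurable_of_countable (fun k : ℤ => k - 1)).comp h2))
  · exact measurable_fst.prodMk ((measurable_actF h3 h1).prodMk h2)
  · exact measurable_fst.prodMk ((measurable_actF h4 h1).prodMk h2)

/-- the transformation of a word -/
def wp (L : List (Bool × Bool)) : Equiv.Perm Zs := (L.map gens).prod

theorem wp_nil : wp [] = 1 := rfl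

theorem wp_cons (a : Bool × Bool) (L : List (Bool × Bool)) : wp (a :: L) = gens a * wp L := by
  simp [wp]

theorem wp_append (L L' : List (Bool × Bool)) : wp (L ++ L') = wp L * wp L' := by simp [wp]

theorem measurable_wp (L : List (Bool × Bool)) : Measurable (wp L) := by
  induction L with
  | nil => exact measurable_id
  | cons a L ih =>
    rw [wp_cons]
    exact (measurable_gens a).comp ih

/-- an enumeration of the words -/
def en : ℕ → List (Bool × Bool) := (exists_surjective_nat (List (Bool × Bool))).choose

theorem en_surj : Function.Surjective en :=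
  (exists_surjective_nat (List (Bool × Bool))).choose_spec

/-- the generating family of the action of the free group -/
def psi : GenFamily Zs where
  dom _ := Set.univ
  map n z := wp (en n) z
  measurableSet_dom _ := MeasurableSet.univ
  measurable_map n := (measurable_wp (en n)).comp measurable_subtype_coe
  id_mem := by
    obtain ⟨n, hn⟩ := en_surj []
    exact ⟨n, rfl, fun x => by rw [hn]; rfl⟩
  comp_mem m n := by
    obtain ⟨k, hk⟩ := en_surj (en m ++ en n)
    refine ⟨k, ?_, fun x _ => ?_⟩
    · ext x
      simp
    · rw [hk, wp_append]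
      rfl

/-- the transformations of the space only change the second coordinate by elements of the
group generated by the parameters -/
theorem wp_form {K : Subgroup Lam} (L : List (Bool × Bool)) (z : Zs) (hz : ∀ j, z.1 j ∈ K) :
    (wp L z).1 = z.1 ∧ ∃ γ ∈ K, (wp L z).2.1 = act γ z.2.1 := by
  induction L with
  | nil => exact ⟨rfl, 1, K.one_mem, (act_one _).symm⟩
  | cons a L ih =>
    obtain ⟨h1, γ, hγ, h2⟩ := ih
    rw [wp_cons, Equiv.Perm.mul_apply]
    rcases a with ⟨_ | _, _ | _⟩
    · exact ⟨h1, γ, hγ, h2⟩
    · exact ⟨h1, γ, hγ, h2⟩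
    · refine ⟨h1, (wp L z).1 (wp L z).2.2.natAbs * γ, K.mul_mem ?_ hγ, ?_⟩
      · rw [h1]; exact hz _
      · rw [act_mul, ← h2]
        rfl
    · refine ⟨h1, ((wp L z).1 (wp L z).2.2.natAbs)⁻¹ * γ, K.mul_mem (K.inv_mem ?_) hγ, ?_⟩
      · rw [h1]; exact hz _
      · rw [act_mul, ← h2]
        rfl

end Pool.Agent.RecIso72
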